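import Pool.Agent.P.MP_323ce2_nt.QF.St

/-! The analytic core of the flip and the form of the flip used in the descent. -/

namespace Pool.Agent.P.MP_323ce2_nt.QF

open Pool.Agent.P.MP_26a8c3_nt Pool.Agent.P.MP_26a8c3_nt.QO Pool.Agent.P.MP_26a8c3_nt.QA
open Pool.Agent.P.MP_323ce2_nt.QZ Complex
open scoped Classical ComplexConjugate

/-- the summation formula with dual weight `J` -/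
def C1 (J : ℝ → ℝ → ℂ) : Prop :=
  ∀ (a b : O → ℂ) (g B : ℝ), 0 < g → a 0 = 0 → (∀ n, ‖a n‖ ≤ 1) → (∀ h, ‖b h‖ ≤ B) →
    (∀ P : ℝ, 0 < P →
      ∑' n : O, a n * (G (N n / P) : ℝ) = (P / g : ℝ) * ∑' h : O, b h * (G (P * N h / g) : ℝ)) →
    ∀ X t : ℝ, 0 < X → Wsum a X t = (a0 / g : ℝ) * b 0 * Wt X t 1 +
      (X : ℂ) ^ (1 / 2 + t * I) * ((√g : ℝ) : ℂ)⁻¹ *
        ∑' h : O, b h * (ab h : ℂ)⁻¹ * J t (nr h * (a0 ^ 2 * X / g))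

/-- size of the dual weight -/
def C2 (J : ℝ → ℝ → ℂ) : Prop :=
  ∀ A : ℕ, ∃ (C : ℝ) (k : ℕ), 0 < C ∧ ∀ t y : ℝ, 0 < y →
    ‖J t y‖ ≤ C * (1 + |t|) ^ k ∧ ‖J t y‖ ≤ C * (1 + |t|) ^ k / y ^ A

/-- return to the class of weights `W`, in mean square -/
def C3 (J : ℝ → ℝ → ℂ) : Prop :=
  ∀ (δ : ℝ) (A : ℕ), 0 < δ → ∃ (C : ℝ) (k : ℕ), 0 < C ∧
    ∀ (ι : Type) (s : Finset ι) (u : ι → O → ℂ) (c : ι → ℝ) (β₀ t b : ℝ), 0 < β₀ → 0 ≤ b →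
      (∀ i ∈ s, 0 ≤ c i ∧ u i 0 = 0 ∧ ∀ n, ‖u i n‖ ≤ 1) →
      (∀ Y v : ℝ, 0 < Y → ∑ i ∈ s, c i * ‖Wsum (u i) Y v‖ ^ 2 ≤
        b * Y ^ (1 + δ) * (1 + β₀ * Y) ^ A * (1 + |v|) ^ A) →
      ∃ T : ι → ℝ, (∀ i ∈ s, ∀ β : ℝ, β₀ ≤ β →
          ‖∑' n : O, u i n * (ab n : ℂ)⁻¹ * J t (nr n * β)‖ ≤ T i) ∧
        ∑ i ∈ s, c i * T i ^ 2 ≤ C * (1 + |t|) ^ k * β₀ ^ (-δ) * b

/-- the analytic core -/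
def S_Core : Prop := ∃ J : ℝ → ℝ → ℂ, C1 J ∧ C2 J ∧ C3 J

/-- the flip, with a hypothesis at all lengths -/
def S_F3 : Prop :=
  ∀ Q : O, Q ≠ 0 → 36 ∣ Q → ∀ (δ : ℝ) (A : ℕ), 0 < δ → ∃ (C : ℝ) (k : ℕ), 0 < C ∧
    ∀ (ι : Type) (s : Finset ι) (ν : ι → O → ℂ) (m : ι → O) (c : ι → ℝ) (R X t b : ℝ),
      1 ≤ R → 1 ≤ X → 0 ≤ b →
      (∀ i ∈ s, IsNu Q (ν i) ∧ m i ≠ 0 ∧ Rad (m i) R ∧ ¬ Exc Q (ν i) (m i) ∧ 0 ≤ c i) →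
      (∀ Y v : ℝ, 0 < Y → ∑ i ∈ s, c i * ‖Lm (ν i) (m i) Y v‖ ^ 2 ≤
        b * Y ^ (1 + δ) * (1 + Y * X / R) ^ A * (1 + |v|) ^ A) →
      ∑ i ∈ s, c i * ‖Lm (ν i) (m i) X t‖ ^ 2 ≤ C * (1 + |t|) ^ k * R ^ (2 * δ) * b * X

end Pool.Agent.P.MP_323ce2_nt.QF
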