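import Pool.Agent.P.MP_323ce2_nt.QF.Ret
import Pool.Agent.P.MP_26a8c3_nt.QB.Bas
import Pool.Agent.P.MP_323ce2_nt.QF.StC

/-! Smooth Poisson summation on the Eisenstein integers and the return to weighted sums. -/

namespace Pool.Agent.P.MP_323ce2_nt.QF

open Complex
open Pool.Agent.P.MP_26a8c3_nt Pool.Agent.P.MP_26a8c3_nt.QO Pool.Agent.P.MP_26a8c3_nt.QA
open scoped Classical

/-- the dual sum -/
noncomputable def KS1 (b : O → ℂ) (t β : ℝ) : ℂ :=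
  ∑' n : O, b n * ((√(nr n))⁻¹ : ℝ) * K1 t (nr n * β)

theorem norm_KS1_term (k : ℕ) : ∃ C : ℝ, 0 < C ∧ ∀ (b : ℂ) (n : O) (t β : ℝ), 0 < β →
    ‖b * ((√(nr n))⁻¹ : ℝ) * K1 t (nr n * β)‖ ≤
      ‖b‖ * (C * (1 + |t|) ^ (2 * k) * (β ^ k)⁻¹ * nr n ^ (-(k : ℝ))) := by
  obtain ⟨C, hC, h⟩ := exists_K1_le k
  refine ⟨C, hC, fun b n t β hβ => ?_⟩
  have h0 := nr_pos n
  have h1 := h t _ (mul_pos h0 hβ)
  have h2 : (√(nr n))⁻¹ ≤ 1 := inv_le_one_of_one_le₀ (Real.one_le_sqrt.2 (one_le_nr n))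
  rw [mul_assoc, norm_mul, norm_mul, Complex.norm_real, Real.norm_of_nonneg (by positivity),
    Real.rpow_neg h0.le, Real.rpow_natCast]
  refine mul_le_mul_of_nonneg_left ?_ (norm_nonneg _)
  calc _ ≤ 1 * (C * (1 + |t|) ^ (2 * k) * ((nr n * β) ^ k)⁻¹) := by gcongr
    _ = _ := by rw [mul_pow, mul_inv]; ring

/-- decay of the dual sum -/
theorem norm_KS1_le (k : ℕ) : ∃ C : ℝ, 0 < C ∧ ∀ (b : O → ℂ) (B t β : ℝ), (∀ n, ‖b n‖ ≤ B) → 0 < β →
    ‖KS1 b t β‖ ≤ C * B * (1 + |t|) ^ (2 * (k + 2)) * (β ^ (k + 2))⁻¹ := by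
  obtain ⟨C, hC, h⟩ := norm_KS1_term (k + 2)
  have hs := QB.summable_nr (σ := (k + 2 : ℕ)) (by push_cast; linarith [Nat.cast_nonneg (α := ℝ) k])
  have h0 : 0 ≤ ∑' c : O, nr c ^ (-((k + 2 : ℕ) : ℝ)) :=
    tsum_nonneg fun c => Real.rpow_nonneg (nr_pos c).le _
  refine ⟨C * (1 + ∑' c : O, nr c ^ (-((k + 2 : ℕ) : ℝ))), by positivity, fun b B t β hb hβ => ?_⟩
  have hB : 0 ≤ B := (norm_nonneg _).trans (hb 0)
  refine (tsum_of_norm_bounded (hs.hasSum.mul_left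
    (B * (C * (1 + |t|) ^ (2 * (k + 2)) * (β ^ (k + 2))⁻¹))) fun n => (h _ n t β hβ).trans ?_).trans ?_
  · have := nr_pos n
    rw [mul_assoc B]
    gcongr
    exact hb n
  · calc _ ≤ B * (C * (1 + |t|) ^ (2 * (k + 2)) * (β ^ (k + 2))⁻¹) *
        (1 + ∑' c : O, nr c ^ (-((k + 2 : ℕ) : ℝ))) := by gcongr; linarith
      _ = _ := by ring

theorem KS1_eq {b : O → ℂ} (h0 : b 0 = 0) (t β : ℝ) :
    ∑' n : O, b n * (ab n : ℂ)⁻¹ * K1 t (nr n * β) = KS1 b t β := by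
  refine tsum_congr fun n => ?_
  by_cases hn : n = 0
  · simp [hn, h0]
  · rw [ab_eq, nr_eq hn, ofReal_inv]

/-- Poisson summation with the weight `W` -/
theorem pC1 : C1 K1 := by
  intro F b g B hN h0 h1 hB hP X t hX
  have ha := a0_pos
  have hB0 : 0 ≤ B := (norm_nonneg _).trans (hB 0)
  have k2 : ∀ h, ‖b h / (g : ℂ)‖ ≤ B / g := fun h => by
    rw [norm_div, Complex.norm_real, Real.norm_of_nonneg hN.le]
    gcongr
    exact hB h
  have hb : ∀ h, ‖if h = 0 then 0 else b h / (g : ℂ)‖ ≤ B / g := fun h => by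
    split_ifs
    · rw [norm_zero]; positivity
    · exact k2 h
  have hs : ∀ (u : O → ℂ) (c D : ℝ), 0 < c → (∀ x, ‖u x‖ ≤ D) →
      Summable fun x => ‖u x‖ * (c * nr x) ^ (-2 : ℝ) := fun u c D hc hu => by
    refine Summable.of_nonneg_of_le (fun x => by have := nr_pos x; positivity) (fun x => ?_)
      ((QB.summable_nr one_lt_two).mul_left (D * c ^ (-2 : ℝ)))
    have := nr_pos x
    rw [Real.mul_rpow hc.le this.le, mul_assoc D]
    gcongr
    exact hu x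
  have k := poisson_pos (a := F) (r := fun x => a0 * nr x)
    (b := fun h => if h = 0 then 0 else b h / (g : ℂ)) (r' := fun h => a0 / g * nr h)
    (c := b 0 / g) (fun x => mul_pos ha (nr_pos x)) (fun x => mul_pos (by positivity) (nr_pos x))
    (hs _ _ _ ha h1) (hs _ _ _ (by positivity) hb) (fun v hv => ?_) (mul_pos ha hX) t
  · have e1 : ∀ x, W (a0 * X) t (a0 * nr x) = (a0 : ℂ) ^ ((t : ℂ) * I) * W X t (nr x) := fun x => by
      rw [W_mul (mul_pos ha hX) ha (nr_pos x), mul_div_cancel_left₀ _ ha.ne']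
    have e2 : Wt (a0 * X) t 1 = (a0 : ℂ) ^ ((t : ℂ) * I) * (a0 * Wt X t 1) := by
      rw [Wt, Wt, cpow_eq ha, Real.log_mul ha.ne' hX.ne', show (a0 : ℂ) = Complex.exp (Real.log a0) by
        rw [← Complex.ofReal_exp, Real.exp_log ha], mul_left_comm _ (((√Real.pi : ℝ)) : ℂ),
        mul_left_comm _ (((√Real.pi : ℝ)) : ℂ), ← Complex.exp_add, ← Complex.exp_add]
      congr 2
      push_cast
      ring
    have e3 : ((a0 * X : ℝ) : ℂ) ^ (1 / 2 + t * I) =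
        (a0 : ℂ) ^ ((t : ℂ) * I) * ((√a0 : ℝ) * (X : ℂ) ^ (1 / 2 + t * I)) := by
      rw [ofReal_mul, Complex.mul_cpow_ofReal_nonneg ha.le hX.le, Complex.cpow_add _ _
        (ofReal_ne_zero.2 ha.ne'), Real.sqrt_eq_rpow, Complex.ofReal_cpow ha.le]
      push_cast; ring
    have e4 : (a0 : ℂ) ^ ((t : ℂ) * I) ≠ 0 := by rw [cpow_eq ha]; exact Complex.exp_ne_zero _
    simp only [e1, mul_left_comm (F _), tsum_mul_left] at k
    rw [e2, e3] at k
    refine mul_left_cancel₀ e4 (k.trans ?_)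
    rw [mul_add, mul_assoc ((a0 : ℂ) ^ _) (_ * _), mul_comm ((√a0 : ℝ) : ℂ),
      mul_assoc ((X : ℂ) ^ _), mul_assoc ((X : ℂ) ^ _), ← tsum_mul_left (a := ((√a0 : ℝ) : ℂ)),
      ← tsum_mul_left (a := ((√g : ℝ) : ℂ)⁻¹)]
    congr 1
    · push_cast; ring
    congr 3
    funext h
    rw [show a0 / g * nr h * (a0 * X) = nr h * (a0 ^ 2 * X / g) by ring]
    split_ifs with hh
    · simp [hh, ab_eq]
    have s1 := Real.sqrt_pos.2 ha
    have s2 := Real.sqrt_pos.2 (nr_pos h)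
    have s3 := Real.sqrt_pos.2 hN
    rw [Real.sqrt_mul (by positivity), Real.sqrt_div ha.le, ab_eq, ← nr_eq hh]
    have s4 : ((√a0 : ℝ) : ℂ) ≠ 0 := ofReal_ne_zero.2 s1.ne'
    have s5 : ((√(nr h) : ℝ) : ℂ) ≠ 0 := ofReal_ne_zero.2 s2.ne'
    have s6 : ((√g : ℝ) : ℂ) ≠ 0 := ofReal_ne_zero.2 s3.ne'
    have s7 : (g : ℂ) = ((√g : ℝ) : ℂ) ^ 2 := by exact_mod_cast (Real.sq_sqrt hN.le).symm
    generalize K1 t _ = z
    rw [s7]
    push_cast
    field_simp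
  · have e1 : ∀ x, F x * ((Real.exp (-(a0 * nr x / v)) : ℝ) : ℂ) = F x * (G (N x / v) : ℝ) := fun x => by
      by_cases hx : x = 0
      · simp [hx, h0]
      · rw [nr_eq hx, G, mul_div_assoc]
    have hs2 : Summable fun h : O => b h / (g : ℂ) * (G (v * N h / g) : ℝ) := by
      refine Summable.of_norm_bounded ((QB.summable_nr (σ := 2) (by norm_num)).mul_left
        (B / g * max 1 (2 * (a0 / g * v) ^ (-2 : ℝ)))) fun h => ?_
      rw [norm_mul, Complex.norm_real, Real.norm_of_nonneg (QB.G_pos _).le, mul_assoc]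
      refine mul_le_mul (k2 h) ?_ (QB.G_pos _).le (by positivity)
      by_cases hx : h = 0
      · simp [hx, G, nr]
      have k3 := N_pos_real hx
      have k4 : 0 < a0 / g * v := by positivity
      have k5 := Real.pow_div_factorial_le_exp (a0 / g * v * N h) (by positivity) 2
      refine le_trans ?_ (mul_le_mul_of_nonneg_right (le_max_right _ _)
        (Real.rpow_nonneg (nr_pos h).le _))
      rw [nr_eq hx, G, mul_assoc, ← Real.mul_rpow k4.le k3.le, Real.rpow_neg (by positivity),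
        Real.rpow_two, show a0 * (v * N h / g) = a0 / g * v * N h by ring, Real.exp_neg,
        ← div_eq_mul_inv, le_div_iff₀ (by positivity), inv_mul_le_iff₀ (Real.exp_pos _)]
      norm_num [Nat.factorial] at k5
      linarith
    simp only [e1]
    rw [hP v hv, ofReal_div, div_eq_mul_inv, mul_assoc, ← tsum_mul_left]
    congr 1
    simp only [← mul_assoc, inv_mul_eq_div]
    rw [hs2.tsum_eq_add_tsum_ite 0]
    congr 1
    · simp [G]
    refine tsum_congr fun h => ?_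
    split_ifs with hx
    · simp
    · rw [nr_eq hx, G]; congr 4; ring

theorem pC2 : C2 K1 := fun A => by
  obtain ⟨C0, h0, k0⟩ := exists_K1_le 0
  obtain ⟨C1, h1, k1⟩ := exists_K1_le A
  refine ⟨C0 + C1, 2 * A, by positivity, fun t y hy => ⟨(k0 t y hy).trans ?_, (k1 t y hy).trans ?_⟩⟩
  · have : (1 : ℝ) ≤ (1 + |t|) ^ (2 * A) := one_le_pow₀ (by linarith [abs_nonneg t])
    simp only [mul_zero, pow_zero, inv_one, mul_one]
    nlinarith
  · rw [← div_eq_mul_inv]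
    gcongr
    linarith

/-- The dual sums are bounded in mean square, uniformly in the scale, by the weighted sums. -/
theorem pC3 : C3 K1 := by
  intro δ A hδ
  obtain ⟨C1, hC1, hr⟩ := ret_l2 (A + ⌈δ⌉₊) A (lt_min hδ one_pos) (min_le_right δ 1)
  obtain ⟨C3, hC3, h3⟩ := norm_KS1_le 0
  refine ⟨C1, 2 * A + 4 * (A + ⌈δ⌉₊ + 2), hC1, fun ι s b c β₀ t B hV hB hb h => ?_⟩
  have key : ∀ β : ι → ℝ, (∀ i ∈ s, β₀ ≤ β i) → ∑ i ∈ s, c i * ‖KS1 (b i) t (β i)‖ ^ 2 ≤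
      C1 * (1 + |t|) ^ (2 * A + 4 * (A + ⌈δ⌉₊ + 2)) * β₀ ^ (-δ) * B := by
    intro β hβ
    have e : ∀ i ∈ s, ∀ z : ℂ, ‖((√(c i) : ℝ) : ℂ) * z‖ ^ 2 = c i * ‖z‖ ^ 2 := fun i hi z => by
      rw [norm_mul, mul_pow, Complex.norm_real, Real.norm_of_nonneg (Real.sqrt_nonneg _),
        Real.sq_sqrt (hb i hi).1]
    have hW := inv_pos.2 hV
    have := hr s (fun i => (√(c i) : ℝ)) b nr β β₀⁻¹ (B * β₀⁻¹ ^ (δ - min δ 1)) t hW
      (by positivity) nr_pos (fun i hi => (one_le_inv_mul₀ hV).2 (hβ i hi))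
      (fun i hi => QB.summable_bd (hb i hi).2.2) fun Y u hY => ?_
    · rw [Finset.sum_congr rfl fun i hi => e i hi _] at this
      refine this.trans_eq ?_
      rw [mul_assoc, mul_assoc B, ← Real.rpow_add hW, sub_add_cancel, Real.inv_rpow hV.le,
        Real.rpow_neg hV.le]
      ring
    rw [Finset.sum_congr rfl fun i hi => e i hi _]
    refine (h Y u hY).trans ?_
    have u1 : (1 : ℝ) ≤ 1 + |u| := by linarith [abs_nonneg u]
    have u2 := mul_pos hV hY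
    have u3 : Y ^ (δ - min δ 1) ≤ β₀⁻¹ ^ (δ - min δ 1) * (1 + β₀ * Y) ^ ⌈δ⌉₊ := by
      have u4 : 0 ≤ δ - min δ 1 := sub_nonneg.2 (min_le_left _ _)
      rw [show Y ^ (δ - min δ 1) = β₀⁻¹ ^ (δ - min δ 1) * (β₀ * Y) ^ (δ - min δ 1) by
        rw [← Real.mul_rpow hW.le u2.le, inv_mul_cancel_left₀ hV.ne'], ← Real.rpow_natCast]
      refine mul_le_mul_of_nonneg_left ((Real.rpow_le_rpow u2.le (by linarith) u4).trans
        (Real.rpow_le_rpow_of_exponent_le (by linarith) ?_)) (by positivity)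
      linarith [Nat.le_ceil δ, lt_min hδ one_pos]
    rw [div_inv_eq_mul, mul_comm Y β₀, show 1 + δ = 1 + min δ 1 + (δ - min δ 1) by ring,
      Real.rpow_add hY _ (δ - _)]
    calc _ ≤ B * (Y ^ (1 + min δ 1) * (β₀⁻¹ ^ (δ - min δ 1) * (1 + β₀ * Y) ^ ⌈δ⌉₊)) *
          (1 + β₀ * Y) ^ A * (1 + |u|) ^ (2 * A) := by
          gcongr
          omega
      _ = B * β₀⁻¹ ^ (δ - min δ 1) * (1 + |u|) ^ (2 * A) * Y ^ (1 + min δ 1) *
          (1 + β₀ * Y) ^ (A + ⌈δ⌉₊) := by ring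
      _ ≤ _ := by
          gcongr
          · linarith
          · omega
  have : Nonempty {β : ℝ // β₀ ≤ β} := ⟨⟨β₀, le_rfl⟩⟩
  have bd : ∀ i ∈ s, BddAbove (Set.range fun β : {β : ℝ // β₀ ≤ β} => ‖KS1 (b i) t β‖) :=
    fun i hi => ⟨C3 * 1 * (1 + |t|) ^ (2 * (0 + 2)) * (β₀ ^ (0 + 2))⁻¹, by
      rintro _ ⟨β, rfl⟩
      refine (h3 _ 1 t β (hb i hi).2.2 (hV.trans_le β.2)).trans ?_
      gcongr
      exact β.2⟩
  refine ⟨fun i => ⨆ β : {β : ℝ // β₀ ≤ β}, ‖KS1 (b i) t β‖,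
    fun i hi β hβ => (KS1_eq (hb i hi).2.1 t β).symm ▸ le_ciSup (bd i hi) ⟨β, hβ⟩, ?_⟩
  have lim : Filter.Tendsto (fun η : ℝ => ∑ i ∈ s, c i *
      (η * ⨆ β : {β : ℝ // β₀ ≤ β}, ‖KS1 (b i) t β‖) ^ 2) (nhdsWithin 1 (Set.Iio 1))
      (nhds (∑ i ∈ s, c i * (1 * ⨆ β : {β : ℝ // β₀ ≤ β}, ‖KS1 (b i) t β‖) ^ 2)) :=
    (Continuous.tendsto (by fun_prop) 1).mono_left nhdsWithin_le_nhds
  simp only [one_mul] at lim
  refine le_of_tendsto lim ?_
  filter_upwards [Ioo_mem_nhdsLT one_pos] with η hη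
  have ex : ∀ i, ∃ β : {β : ℝ // β₀ ≤ β},
      η * ⨆ β : {β : ℝ // β₀ ≤ β}, ‖KS1 (b i) t β‖ ≤ ‖KS1 (b i) t β‖ := fun i => by
    have p0 : 0 ≤ ⨆ β : {β : ℝ // β₀ ≤ β}, ‖KS1 (b i) t β‖ :=
      Real.iSup_nonneg fun _ => norm_nonneg _
    rcases p0.eq_or_lt with p1 | p1
    · exact ⟨Classical.arbitrary _, by rw [← p1, mul_zero]; exact norm_nonneg _⟩
    · obtain ⟨β, hβ⟩ := exists_lt_of_lt_ciSup (mul_lt_of_lt_one_left p1 hη.2)
      exact ⟨β, hβ.le⟩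
  choose β hβ using ex
  refine le_trans (Finset.sum_le_sum fun i hi => mul_le_mul_of_nonneg_left (pow_le_pow_left₀
    (mul_nonneg hη.1.le (Real.iSup_nonneg fun _ => norm_nonneg _)) (hβ i) 2) (hb i hi).1)
    (key (fun i => β i) fun i _ => (β i).2)

theorem pCore : S_Core := ⟨K1, pC1, pC2, pC3⟩

end Pool.Agent.P.MP_323ce2_nt.QF
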