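import Pool.Agent.P.MP_323ce2_nt.QF.F02
import Pool.Agent.P.MP_323ce2_nt.QF.CoreO
import Pool.Agent.P.MP_26a8c3_nt.QO.All

/-! The flip layer. -/

namespace Pool.Agent.P.MP_323ce2_nt.QF

open Pool.Agent.P.MP_26a8c3_nt

theorem f0 : S_F0 := pF0 QO.alg pCore

theorem f1 : S_F1 := pF1 QO.alg pCore

theorem f3 : S_F3 := pF3 QO.alg pCore

theorem f2 : S_F2 := pF2 f3

end Pool.Agent.P.MP_323ce2_nt.QF
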