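import Pool.Agent.P.MP_323ce2_nt.QF.Mul

/-! The sextic twist as a periodic function. -/

namespace Pool.Agent.P.MP_323ce2_nt.QF

open Pool.Agent.P.MP_26a8c3_nt Pool.Agent.P.MP_26a8c3_nt.QO Pool.Agent.P.MP_26a8c3_nt.QO.Ker
open Pool.Agent.P.MP_323ce2_nt.QZ Finset UniqueFactorizationMonoid
open scoped Classical ComplexConjugate

lemma exists_split {Q m : O} (h3 : 3 ∣ Q) (hm : m ≠ 0) : ∃ g n, g ≠ 0 ∧
    (∀ p, Prime p → p ∣ g → p ∣ Q) ∧ Primary n ∧ IsCoprime n Q ∧ m = g * n := by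
  refine nz_ind (P := fun m => ∃ g n, g ≠ 0 ∧ (∀ p, Prime p → p ∣ g → p ∣ Q) ∧ Primary n ∧
    IsCoprime n Q ∧ m = g * n) (fun u hu => ?_) (fun p a e1 e2 _ ⟨g, n, h0, h1, h2, h4, e⟩ => ?_) hm
  · exact ⟨u, 1, hu.ne_zero, fun p hp e => absurd (isUnit_of_dvd_unit e hu) hp.not_isUnit,
      primary_one, isCoprime_one_left, (mul_one u).symm⟩
  · by_cases hp : p ∣ Q
    · refine ⟨p * g, n, mul_ne_zero e1.ne_zero h0, fun q hq e => ?_, h2, h4, by rw [e, mul_assoc]⟩
      rcases hq.dvd_or_dvd e with e | e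
      exacts [e.trans hp, h1 q hq e]
    · exact ⟨g, p * n, h0, h1, (e2.primary fun e => hp ((prime_lam.associated_of_dvd e1 e).symm.dvd.trans
        (lam_dvd_three.trans h3))).mul h2, (e1.coprime_iff_not_dvd.2 hp).mul_left h4, by rw [e]; ring⟩

lemma coprime_iff_of_primes {a b : O} (ha : a ≠ 0) (hb : b ≠ 0)
    (h : ∀ p, Prime p → (p ∣ a ↔ p ∣ b)) (n : O) : IsCoprime n a ↔ IsCoprime n b := by
  rw [← not_iff_not, not_coprime_iff ha, not_coprime_iff hb]
  exact exists_congr fun p => and_congr_right fun hp => by rw [h p hp]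

theorem pDec (hA : Alg) : S_Dec := by
  intro Q m hQ h36 hm
  have h3 : (3 : O) ∣ Q := Dvd.dvd.trans ⟨12, by norm_num⟩ h36
  have h2 : (2 : O) ∣ Q := Dvd.dvd.trans ⟨18, by norm_num⟩ h36
  have h4 : (4 : O) ∣ 2 * Q := (Dvd.dvd.trans ⟨9, by norm_num⟩ h36).mul_left 2
  obtain ⟨g, n, hg, hgQ, hn, hc, rfl⟩ := exists_split h3 hm
  set E := (normalizedFactors n).toFinset with hEd
  have hmem : ∀ p ∈ E, p ∈ normalizedFactors n := fun p hp => Multiset.mem_toFinset.1 hp
  have hE : Gd E := fun p hp => ⟨(mem_nf (hmem p hp)).1, (mem_nf (hmem p hp)).2.1.primary fun e =>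
    hn.not_lam_dvd (e.trans (mem_nf (hmem p hp)).2.2)⟩
  have hpr : ∀ p, Prime p → (p ∣ pr E ↔ p ∣ n) := fun p hp => by
    constructor
    · intro e
      obtain ⟨q, hq, e⟩ := (hp.dvd_finsetProd_iff _).1 e
      exact e.trans (mem_nf (hmem q hq)).2.2
    · intro e
      have e1 := normalize_associated p
      refine e1.symm.dvd.trans (dvd_prod_of_mem _ (Multiset.mem_toFinset.2 ?_))
      exact (mem_normalizedFactors_iff' hn.ne_zero).2
        ⟨(e1.symm.prime hp).irreducible, normalize_idem p, e1.dvd.trans e⟩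
  have hq0 : 2 * Q ≠ 0 := mul_ne_zero two_ne_zero hQ
  have hco : ∀ x, IsCoprime x (2 * Q * pr E) ↔ IsCoprime x (Q * (g * n)) :=
    coprime_iff_of_primes (mul_ne_zero hq0 (pr_ne hE)) (mul_ne_zero hQ hm) fun p hp => by
      simp only [hp.dvd_mul, hpr p hp]
      have := hgQ p hp
      have : p ∣ 2 → p ∣ Q := fun e => e.trans h2
      tauto
  have on : Od n := hc.of_isCoprime_of_dvd_right h2
  have hqr : IsCoprime (2 * Q) (pr E) :=
    (coprime_iff_of_primes (pr_ne hE) hn.ne_zero hpr _).2 (IsCoprime.mul_right on hc).symm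
  refine ⟨pr E, fun ν hν => ?_, fun R ⟨r, r0, r1, r2⟩ => le_trans ?_ r1, hco⟩
  · obtain ⟨-, -, -, -, hs, -, hx, -⟩ := hA.gam
    have hρ : ∀ p ∈ E, IsNu p fun x => psi p x ^ (normalizedFactors n).count p := fun p hp =>
      (isNu_psi (hE p hp).1.ne_zero).pow' (Multiset.count_ne_zero.2 (hmem p hp))
    have hρ' := isNu_prod hE hρ
    set α : O → ℂ := fun x => if Primary x then ν x * psi x g * xi n x else 0 with hα
    have e : uL (ph ν (g * n)) = fun x => α x * ∏ p ∈ E, psi p x ^ (normalizedFactors n).count p := by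
      funext x
      simp only [uL, hα, ph]
      split_ifs with h1
      · by_cases h5 : IsCoprime x Q
        · rw [psi_mul, hA.qr.2.2 x n h1 hn (h5.of_isCoprime_of_dvd_right h2) on, hs x n,
            psi_ext n x, QO.ext, prod_multiset_map_count]
          ring
        · simp [hν.zero x h5]
      · rw [zero_mul]
    have hP : Per (2 * Q) α := fun x y e => by
      have e1 : Q ∣ x - y := (dvd_mul_left Q 2).trans e
      simp only [hα]
      by_cases h1 : Primary x
      · have h1' := (per_primary h3 e1).1 h1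
        rw [if_pos h1, if_pos h1', ← hν.per x y e1, (hx n on).per x y (h4.trans e)]
        by_cases h5 : IsCoprime x Q
        · rw [hA.per Q g x y h36 hg hgQ h1 h1' h5 e]
        · simp [hν.zero x h5]
      · rw [if_neg h1, if_neg (mt (per_primary h3 e1).2 h1)]
    refine ⟨mul1_ph hν _, hq0, h3.mul_left 2, ⟨pr_primary hE, pr_sqf hE⟩, hqr, ?_, fun x h1 h5 => ?_,
      fun h => ?_⟩
    · rw [e]
      exact (hP.mono (dvd_mul_right _ _)).mul (hρ'.per.mono (dvd_mul_left _ _))
    · by_cases h6 : IsCoprime x Q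
      · rw [ph, (psi_eq_zero h1.ne_zero).2 fun e => h5 ((hco x).2 (h6.mul_right e.symm)), mul_zero]
      · rw [ph, hν.zero x h6, zero_mul]
    · rw [e, ft_crt' hq0 (pr_ne hE) hqr hP hρ'.per, norm_mul]
      refine mul_le_mul ((norm_ft_le hq0 (B := 1) (fun y => ?_) h).trans (by simp))
        ((norm_ft_scale hρ' _ _).trans (ft_prod_le hE hρ h)) (norm_nonneg _) (by positivity)
      simp only [hα]
      split_ifs
      · exact QB.norm_mul_le_one (QB.norm_mul_le_one (hν.le _) (norm_psi_le _ _)) ((hx n on).le _)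
      · simp
  · have : pr E ∣ r := by
      refine Finset.prod_dvd_of_coprime (fun p hp q hq hne => ?_) fun p hp =>
        r2 p (hE p hp).1 ((mem_nf (hmem p hp)).2.2.mul_left g)
      refine (hE p hp).1.coprime_iff_not_dvd.2 fun hd => hne ?_
      exact (hE p hp).2.eq_of_associated (hE q hq).2 ((hE p hp).1.associated_of_dvd (hE q hq).1 hd)
    exact_mod_cast N_le_of_dvd this r0

end Pool.Agent.P.MP_323ce2_nt.QF
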