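import Pool.Agent.P.MP_26a8c3_nt.QA.JL

/-! Abstract smooth Poisson summation for the exponential kernel and the weight `W`. -/

namespace Pool.Agent.P.MP_323ce2_nt.QF

open Complex MeasureTheory Set Filter Topology
open scoped Real
open Pool.Agent.P.MP_26a8c3_nt.QA

/-- The Mellin transform of `W` divided by the Gamma function; an entire function. -/
noncomputable def H1 (X t : ℝ) (s : ℂ) : ℂ := Wt X t s * (Complex.Gamma s)⁻¹

/-- The test function whose Laplace transform is `W`. -/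
noncomputable def rh (X t σ v : ℝ) : ℂ :=
  (1 / (2 * π) : ℝ) * ∫ u : ℝ, H1 X t (σ + u * I) * (v : ℂ) ^ ((σ : ℂ) + u * I)

/-- The weight of the dual sum. -/
noncomputable def Kw (t : ℝ) (s : ℂ) : ℂ :=
  Wt 1 t (1 - s) * (Complex.Gamma s * (Complex.Gamma (1 - s))⁻¹)

/-- The dual test function computed on the line `Re s = σ`. -/
noncomputable def Kl (σ t y : ℝ) : ℂ :=
  (1 / (2 * π) : ℝ) * ∫ u : ℝ, Kw t (σ + u * I) * (y : ℂ) ^ (1 / 2 - ((σ : ℂ) + u * I))

/-- The dual test function. -/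
noncomputable def K1 (t y : ℝ) : ℂ := Kl (1 / 2) t y

variable {r X : ℝ}

theorem mel_e (hr : 0 < r) {w : ℂ} (hw : 0 < w.re) :
    IntegrableOn (fun v : ℝ => (v : ℂ) ^ (w - 1) * ((Real.exp (-(r * v)) : ℝ) : ℂ)) (Ioi 0) ∧
      ∫ v in Ioi (0 : ℝ), (v : ℂ) ^ (w - 1) * ((Real.exp (-(r * v)) : ℝ) : ℂ) =
        (r : ℂ) ^ (-w) * Complex.Gamma w := by
  have hconv : MellinConvergent (fun x : ℝ => ((Real.exp (-x) : ℝ) : ℂ)) w := by
    refine (Complex.GammaIntegral_convergent hw).congr_fun (fun x _ => ?_) measurableSet_Ioi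
    simp [mul_comm]
  refine ⟨(MellinConvergent.comp_mul_left hr).2 hconv, ?_⟩
  have := mellin_comp_mul_left (fun x : ℝ => ((Real.exp (-x) : ℝ) : ℂ)) w hr
  rw [← Complex.GammaIntegral_eq_mellin, ← Complex.Gamma_eq_integral hw] at this
  exact this

theorem mel_e_real (hr : 0 < r) {x : ℝ} (hx : 0 < x) :
    IntegrableOn (fun v : ℝ => v ^ (x - 1) * Real.exp (-(r * v))) (Ioi 0) ∧
      ∫ v in Ioi (0 : ℝ), v ^ (x - 1) * Real.exp (-(r * v)) = r ^ (-x) * Real.Gamma x := by
  obtain ⟨h1, -⟩ := mel_e hr (w := x) (by simpa using hx)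
  have e : ∀ v ∈ Ioi (0 : ℝ), (v : ℂ) ^ ((x : ℂ) - 1) * ((Real.exp (-(r * v)) : ℝ) : ℂ) =
      ((v ^ (x - 1) * Real.exp (-(r * v)) : ℝ) : ℂ) := fun v hv => by
    rw [ofReal_mul, Complex.ofReal_cpow (le_of_lt hv)]; push_cast; rfl
  refine ⟨?_, ?_⟩
  · have := ((integrableOn_congr_fun e measurableSet_Ioi).1 h1).re
    simpa only [IntegrableOn, RCLike.re_to_complex, ofReal_re] using this
  · rw [Real.integral_rpow_mul_exp_neg_mul_Ioi hx hr, one_div, Real.inv_rpow hr.le,
      Real.rpow_neg hr.le]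

theorem fubini_e (hr : 0 < r) {φ z : ℝ → ℂ} (hφ : Integrable φ) (hz : Continuous z)
    {x : ℝ} (hx : 0 < x) (hre : ∀ u, (z u).re = x) :
    ∫ v in Ioi (0 : ℝ), ((Real.exp (-(r * v)) : ℝ) : ℂ) * ∫ u, φ u * (v : ℂ) ^ (z u - 1) =
      ∫ u, φ u * ((r : ℂ) ^ (-z u) * Complex.Gamma (z u)) := by
  have hm : Measurable fun v : ℝ => Real.exp (-(r * v)) := by fun_prop
  have hi : Integrable (Function.uncurry fun (v u : ℝ) =>
      φ u * ((v : ℂ) ^ (z u - 1) * ((Real.exp (-(r * v)) : ℝ) : ℂ)))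
      ((volume.restrict (Ioi 0)).prod volume) := by
    refine Integrable.mono' ((mel_e_real hr hx).1.mul_prod hφ.norm) ?_ ?_
    · refine hφ.aestronglyMeasurable.comp_snd.mul (Measurable.aestronglyMeasurable ?_)
      have := hz.measurable
      exact ((Complex.measurable_ofReal.comp measurable_fst).pow
        ((this.comp measurable_snd).sub_const 1)).mul
        (Complex.measurable_ofReal.comp (hm.comp measurable_fst))
    · rw [← Measure.restrict_univ (μ := (volume : Measure ℝ)), Measure.prod_restrict,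
        ae_restrict_iff' (measurableSet_Ioi.prod MeasurableSet.univ)]
      refine Eventually.of_forall fun p hp => le_of_eq ?_
      have hp0 : 0 < p.1 := hp.1
      simp only [Function.uncurry]
      rw [norm_mul, norm_mul, Complex.norm_cpow_eq_rpow_re_of_pos hp0, Complex.norm_real,
        Real.norm_of_nonneg (Real.exp_pos _).le, sub_re, hre, one_re, mul_comm]
  have h := integral_integral_swap hi
  simp only [integral_const_mul, fun u => (mel_e hr (w := z u) (by rw [hre]; exact hx)).2] at h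
  rw [← h]
  refine integral_congr_ae (Eventually.of_forall fun v => ?_)
  simp only
  rw [← integral_const_mul]
  exact integral_congr_ae (Eventually.of_forall fun u => by ring)

theorem integrable_tsum' {ι α : Type*} [Countable ι] [MeasurableSpace α] {μ : Measure α}
    {F : ι → α → ℂ} (hi : ∀ i, Integrable (F i) μ) (hs : Summable fun i => ∫ a, ‖F i a‖ ∂μ) :
    Integrable (fun a => ∑' i, F i a) μ := by
  refine ⟨(AEMeasurable.tsum fun i => (hi i).1.aemeasurable).aestronglyMeasurable, ?_⟩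
  refine lt_of_le_of_lt (lintegral_mono fun a => enorm_tsum_le_tsum_enorm) ?_
  rw [lintegral_tsum fun i => (hi i).1.enorm]
  have (i : ι) : ∫⁻ a, ‖F i a‖ₑ ∂μ = ENNReal.ofReal (∫ a, ‖F i a‖ ∂μ) :=
    (ofReal_integral_norm_eq_lintegral_enorm (hi i)).symm
  rw [funext this, ← ENNReal.ofReal_tsum_of_nonneg (fun i => integral_nonneg fun a => norm_nonneg _) hs]
  exact ENNReal.ofReal_lt_top

theorem tsum_int_e {ι : Type*} [Countable ι] {a : ι → ℂ} {r : ι → ℝ}
    (hr : ∀ i, 0 < r i) (ha : Summable fun i => ‖a i‖ * r i ^ (-2 : ℝ)) {g : ℝ → ℂ}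
    (hg : Measurable g) {C : ℝ} (hC : ∀ v, 0 < v → ‖g v‖ ≤ C * v) :
    Integrable (fun v => (∑' i, a i * ((Real.exp (-(r i * v)) : ℝ) : ℂ)) * g v)
      (volume.restrict (Ioi (0 : ℝ))) ∧
    ∑' i, a i * ∫ v in Ioi (0 : ℝ), ((Real.exp (-(r i * v)) : ℝ) : ℂ) * g v =
      ∫ v in Ioi (0 : ℝ), (∑' i, a i * ((Real.exp (-(r i * v)) : ℝ) : ℂ)) * g v := by
  have hC0 : 0 ≤ C := by simpa using (norm_nonneg _).trans (hC 1 one_pos)
  have hk := fun i => mel_e_real (hr i) (x := 2) (by norm_num)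
  have hb : ∀ i, ∀ᵐ v ∂(volume.restrict (Ioi (0 : ℝ))),
      ‖a i * (((Real.exp (-(r i * v)) : ℝ) : ℂ) * g v)‖ ≤
      ‖a i‖ * C * (v ^ ((2 : ℝ) - 1) * Real.exp (-(r i * v))) := fun i => by
    rw [ae_restrict_iff' measurableSet_Ioi]
    refine Eventually.of_forall fun v hv => ?_
    have h0 := (Real.exp_pos (-(r i * v))).le
    have h1 := hC v hv
    rw [norm_mul, norm_mul, Complex.norm_real, Real.norm_of_nonneg h0,
      show (2 : ℝ) - 1 = 1 by norm_num, Real.rpow_one]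
    calc _ ≤ ‖a i‖ * (Real.exp (-(r i * v)) * (C * v)) := by gcongr
      _ = _ := by ring
  have hi : ∀ i, Integrable (fun v => a i * (((Real.exp (-(r i * v)) : ℝ) : ℂ) * g v))
      (volume.restrict (Ioi (0 : ℝ))) := fun i => by
    refine Integrable.mono' ((hk i).1.const_mul _) (Measurable.aestronglyMeasurable ?_) (hb i)
    fun_prop
  have hs : Summable fun i => ∫ v in Ioi (0 : ℝ),
      ‖a i * (((Real.exp (-(r i * v)) : ℝ) : ℂ) * g v)‖ := by
    refine Summable.of_nonneg_of_le (fun i => integral_nonneg fun v => norm_nonneg _) (fun i => ?_)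
      (ha.mul_right (C * Real.Gamma 2))
    refine (integral_mono_ae (hi i).norm ((hk i).1.const_mul _) (hb i)).trans (le_of_eq ?_)
    rw [integral_const_mul, (hk i).2]; ring
  have e : (fun v => (∑' i, a i * ((Real.exp (-(r i * v)) : ℝ) : ℂ)) * g v) =
      fun v => ∑' i, a i * (((Real.exp (-(r i * v)) : ℝ) : ℂ) * g v) := by
    funext v; rw [← tsum_mul_right]; exact tsum_congr fun i => by ring
  have h := integral_tsum_of_summable_integral_norm hi hs
  simp only [integral_const_mul] at h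
  rw [e]
  exact ⟨integrable_tsum' hi hs, h⟩

theorem differentiable_H1 (X t : ℝ) : Differentiable ℂ (H1 X t) :=
  (differentiable_Wt X t).mul Complex.differentiable_one_div_Gamma

theorem exists_H1_le (X t : ℝ) : ∃ C : ℝ, 0 < C ∧ ∀ σ u : ℝ, -2 ≤ σ → σ ≤ 3 →
    ‖H1 X t (σ + u * I)‖ ≤ C * Real.exp (-(1 / 8) * u ^ 2) := by
  obtain ⟨C, hC, h⟩ := exists_inv_Gamma_le
  refine ⟨√π * C * Real.exp (3 * |Real.log X| + 3 + 2 * (|t| / 2 + π) ^ 2), by positivity,
    fun σ u h1 h2 => ?_⟩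
  have k1 := h (σ + u * I) (by simpa using h1) (by simp; linarith)
  rw [show ((σ : ℂ) + u * I).im = u by simp] at k1
  have k5 : σ * Real.log X ≤ 3 * |Real.log X| :=
    (le_abs_self _).trans (by rw [abs_mul]; gcongr; exact abs_le.2 ⟨by linarith, h2⟩)
  have k7 : -(u * t) ≤ |u| * |t| := by rw [← abs_mul]; exact neg_le_abs _
  have k8 : σ ^ 2 ≤ 9 := by nlinarith
  rw [H1, norm_mul, norm_Wt]
  calc _ ≤ √π * Real.exp (σ * Real.log X + (σ ^ 2 - (u + t) ^ 2) / 4) *
        (C * Real.exp (π * |u|)) := by gcongr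
    _ = √π * C * Real.exp (σ * Real.log X + (σ ^ 2 - (u + t) ^ 2) / 4 + π * |u|) := by
        simp only [Real.exp_add]; ring
    _ ≤ _ := by
        rw [mul_assoc (√π * C), ← Real.exp_add]
        refine mul_le_mul_of_nonneg_left (Real.exp_le_exp.2 ?_) (by positivity)
        nlinarith [sq_nonneg (|u| - 4 * (|t| / 2 + π)), sq_abs u, sq_nonneg t]

theorem integrable_H1 (X t : ℝ) {σ : ℝ} (h1 : -2 ≤ σ) (h2 : σ ≤ 3) :
    Integrable fun u : ℝ => H1 X t (σ + u * I) := by
  obtain ⟨C, -, h⟩ := exists_H1_le X t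
  exact integrable_of_gauss ((differentiable_H1 X t).continuous.comp (by fun_prop))
    fun u => h σ u h1 h2

theorem norm_cpow_line {v : ℝ} (hv : 0 < v) (σ u : ℝ) :
    ‖(v : ℂ) ^ ((σ : ℂ) + u * I)‖ = v ^ σ := by
  rw [Complex.norm_cpow_eq_rpow_re_of_pos hv]; simp

theorem rh_shift (X t : ℝ) {σ v : ℝ} (h1 : -2 ≤ σ) (h2 : σ ≤ 3) (hv : 0 < v) :
    rh X t σ v = rh X t (-2) v := by
  obtain ⟨C, hC, h⟩ := exists_H1_le X t
  have hd : Differentiable ℂ fun s : ℂ => H1 X t s * (v : ℂ) ^ s := by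
    simp_rw [cpow_eq hv]
    exact (differentiable_H1 X t).mul (by fun_prop)
  rw [rh, rh, shift_gauss hd h1 (C := C * Real.exp (3 * |Real.log v|)) fun x u k1 k2 => ?_]
  have k3 : v ^ x ≤ Real.exp (3 * |Real.log v|) := by
    rw [Real.rpow_def_of_pos hv, Real.exp_le_exp, mul_comm]
    refine (le_abs_self _).trans ?_
    rw [abs_mul]
    gcongr
    exact abs_le.2 ⟨by linarith, by linarith⟩
  have k4 := h x u k1 (k2.trans h2)
  rw [norm_mul, norm_cpow_line hv]
  calc _ ≤ C * Real.exp (-(1 / 8) * u ^ 2) * Real.exp (3 * |Real.log v|) := by gcongr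
    _ = _ := by ring

theorem norm_rh_le (X t : ℝ) {σ : ℝ} (h1 : -2 ≤ σ) (h2 : σ ≤ 3) :
    ∃ C : ℝ, ∀ v, 0 < v → ‖rh X t 2 v‖ ≤ C * v ^ σ := by
  refine ⟨1 / (2 * π) * ∫ u : ℝ, ‖H1 X t (σ + u * I)‖, fun v hv => ?_⟩
  rw [rh_shift X t (by norm_num) (by norm_num) hv, ← rh_shift X t h1 h2 hv, rh, norm_mul,
    Complex.norm_real, Real.norm_of_nonneg (by positivity), mul_assoc, ← integral_mul_const]
  gcongr
  refine (norm_integral_le_integral_norm _).trans (le_of_eq ?_)
  simp_rw [norm_mul, norm_cpow_line hv]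

theorem measurable_rh (X t σ : ℝ) : Measurable (rh X t σ) := by
  have h := (differentiable_H1 X t).continuous.measurable
  have : StronglyMeasurable (Function.uncurry fun v u : ℝ =>
      H1 X t (σ + u * I) * (v : ℂ) ^ ((σ : ℂ) + u * I)) :=
    Measurable.stronglyMeasurable (by unfold Function.uncurry; fun_prop)
  exact (this.integral_prod_right (ν := volume)).measurable.const_mul _

theorem int_left (hr : 0 < r) (X t : ℝ) :
    ∫ v in Ioi (0 : ℝ), ((Real.exp (-(r * v)) : ℝ) : ℂ) * (rh X t 2 v * (v : ℂ)⁻¹) = W X t r := by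
  have h := fubini_e hr (integrable_H1 X t (σ := 2) (by norm_num) (by norm_num))
    (z := fun u : ℝ => ((2 : ℝ) : ℂ) + u * I) (by fun_prop) (x := 2) (by norm_num)
    (fun u => by simp)
  rw [W_eq X t 2 hr]
  have e : ∀ u : ℝ, Wt X t ((2 : ℝ) + u * I) * (r : ℂ) ^ (-(((2 : ℝ) : ℂ) + u * I)) =
      H1 X t ((2 : ℝ) + u * I) * ((r : ℂ) ^ (-(((2 : ℝ) : ℂ) + u * I)) *
        Complex.Gamma (((2 : ℝ) : ℂ) + u * I)) := fun u => by
    have g1 : Complex.Gamma (((2 : ℝ) : ℂ) + u * I) ≠ 0 :=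
      Complex.Gamma_ne_zero_of_re_pos (by simp)
    rw [H1]
    field_simp
  simp_rw [e]
  rw [← h, ← integral_const_mul]
  refine setIntegral_congr_fun measurableSet_Ioi fun v hv => ?_
  have hv0 : (v : ℂ) ≠ 0 := ofReal_ne_zero.2 (ne_of_gt hv)
  simp only [rh, Complex.cpow_sub _ _ hv0, Complex.cpow_one, ← mul_div_assoc, integral_div]
  ring

theorem int_right (hr : 0 < r) (hX : 0 < X) (t : ℝ) {σ : ℝ} (h1 : 0 < σ) (h2 : σ ≤ 3) :
    ∫ v in Ioi (0 : ℝ), ((Real.exp (-(r * v)) : ℝ) : ℂ) * rh X t 2 v⁻¹ =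
      (X : ℂ) ^ (1 / 2 + t * I) * (((√r)⁻¹ : ℝ) * Kl σ t (r * X)) := by
  have hi := (integrable_H1 X t (σ := 1 - σ) (by linarith) (by linarith)).comp_neg
  have e0 : ∀ u : ℝ, ((1 - σ : ℝ) : ℂ) + (-u : ℝ) * I = 1 - (σ + u * I) := fun u => by
    push_cast; ring
  simp only [e0] at hi
  have h := fubini_e hr hi (z := fun u : ℝ => (σ : ℂ) + u * I) (by fun_prop)
    (x := σ) h1 (fun u => by simp)
  have e : ∀ s : ℂ, H1 X t (1 - s) * ((r : ℂ) ^ (-s) * Complex.Gamma s) =
      (X : ℂ) ^ (1 / 2 + t * I) * (((√r)⁻¹ : ℝ) * (Kw t s * ((r * X : ℝ) : ℂ) ^ (1 / 2 - s))) :=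
    fun s => by
    have k : Complex.exp ((1 - s + t * I) * Real.log X + (1 - s + t * I) ^ 2 / 4) *
        Complex.exp (-s * Real.log r) =
        Complex.exp ((1 / 2 + t * I) * Real.log X) * Complex.exp ((Real.log r * (-(1 / 2)) : ℝ)) *
        Complex.exp ((1 - s + t * I) * Real.log 1 + (1 - s + t * I) ^ 2 / 4) *
        Complex.exp ((1 / 2 - s) * Real.log (r * X)) := by
      rw [Real.log_mul hr.ne' hX.ne', Real.log_one]
      simp only [← Complex.exp_add]
      congr 1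
      push_cast
      ring
    rw [H1, Kw, Wt, Wt, cpow_eq hr, cpow_eq hX, cpow_eq (mul_pos hr hX), Real.sqrt_eq_rpow r,
      ← Real.rpow_neg hr.le, Real.rpow_def_of_pos hr, Complex.ofReal_exp]
    linear_combination ((√π : ℝ) * (Complex.Gamma s * (Complex.Gamma (1 - s))⁻¹)) * k
  simp only [e, integral_const_mul] at h
  rw [Kl, mul_left_comm (((√r)⁻¹ : ℝ) : ℂ), mul_left_comm, ← h, ← integral_const_mul]
  refine setIntegral_congr_fun measurableSet_Ioi fun v hv => ?_
  have hv' : 0 < v := hv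
  rw [rh_shift X t (by norm_num) (by norm_num) (inv_pos.2 hv'),
    ← rh_shift X t (σ := 1 - σ) (by linarith) (by linarith) (inv_pos.2 hv'), rh,
    ← integral_neg_eq_self, mul_left_comm]
  congr 2
  refine integral_congr_ae (Eventually.of_forall fun u => ?_)
  simp only [e0]
  generalize (σ : ℂ) + u * I = s
  rw [cpow_eq hv', cpow_eq (inv_pos.2 hv'), Real.log_inv]
  congr 2
  push_cast
  ring

/-- The Mellin transform of `W` at one. -/
theorem integral_W (X t : ℝ) : IntegrableOn (W X t) (Ioi 0) ∧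
    ∫ y in Ioi (0 : ℝ), W X t y = Wt X t 1 := by
  have hd : ∀ x ∈ (univ : Set ℝ), HasDerivWithinAt Real.exp (Real.exp x) univ x :=
    fun x _ => (Real.hasDerivAt_exp x).hasDerivWithinAt
  have e : ∀ x : ℝ, |Real.exp x| • W X t (Real.exp x) = Complex.exp (-1 * (x : ℂ) ^ 2 +
      (2 * Real.log X + 1 + t * I) * x + -(Real.log X : ℂ) ^ 2) := fun x => by
    rw [abs_of_pos (Real.exp_pos x), W, Real.log_exp, Complex.real_smul, Complex.ofReal_exp,
      ← Complex.exp_add]
    congr 1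
    push_cast
    ring
  rw [← Real.range_exp, ← image_univ]
  refine ⟨(integrableOn_image_iff_integrableOn_abs_deriv_smul MeasurableSet.univ hd
    Real.exp_injective.injOn _).2 ?_, ?_⟩
  · simp_rw [e, integrableOn_univ]
    exact integrable_cexp_quadratic' (by simp) _ _
  · rw [integral_image_eq_integral_abs_deriv_smul MeasurableSet.univ hd Real.exp_injective.injOn]
    simp_rw [e]
    rw [Measure.restrict_univ, integral_cexp_quadratic (by simp), Wt, Real.sqrt_eq_rpow,
      Complex.ofReal_cpow Real.pi_pos.le]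
    congr 1
    · push_cast; simp
    · congr 1; ring

theorem int_pole (X t : ℝ) :
    IntegrableOn (fun v : ℝ => (v : ℂ)⁻¹ * (rh X t 2 v * (v : ℂ)⁻¹)) (Ioi 0) ∧
    ∫ v in Ioi (0 : ℝ), (v : ℂ)⁻¹ * (rh X t 2 v * (v : ℂ)⁻¹) = Wt X t 1 := by
  obtain ⟨C1, hC1⟩ := norm_rh_le X t (σ := 2) (by norm_num) (by norm_num)
  obtain ⟨C2, hC2⟩ := norm_rh_le X t (σ := 0) (by norm_num) (by norm_num)
  have m1 := measurable_rh X t 2
  have hi : IntegrableOn (fun v : ℝ => (v : ℂ)⁻¹ * (rh X t 2 v * (v : ℂ)⁻¹)) (Ioi 0) := by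
    refine Integrable.mono' ((integrable_inv_one_add_sq.const_mul (C1 + C2)).integrableOn)
      (Measurable.aestronglyMeasurable (by fun_prop)) ?_
    rw [ae_restrict_iff' measurableSet_Ioi]
    refine Eventually.of_forall fun v hv => ?_
    have hv' : 0 < v := hv
    have k1 := hC1 v hv'
    have k2 := hC2 v hv'
    rw [Real.rpow_two] at k1
    rw [Real.rpow_zero, mul_one] at k2
    rw [norm_mul, norm_mul, norm_inv, Complex.norm_real, Real.norm_of_nonneg hv'.le,
      ← div_eq_mul_inv (C1 + C2), le_div_iff₀ (by positivity),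
      show v⁻¹ * (‖rh X t 2 v‖ * v⁻¹) * (1 + v ^ 2) = ‖rh X t 2 v‖ / v ^ 2 + ‖rh X t 2 v‖ by
        field_simp]
    exact add_le_add ((div_le_iff₀ (by positivity)).2 k1) k2
  refine ⟨hi, ?_⟩
  have e : ∀ v ∈ Ioi (0 : ℝ), ∫ y in Ioi (0 : ℝ), Real.exp (-(y * v)) = v⁻¹ := fun v hv => by
    have := (mel_e_real (r := v) hv (x := 1) one_pos).2
    simpa [mul_comm, Real.rpow_neg_one] using this
  have hp : Integrable (Function.uncurry fun (v y : ℝ) =>
      ((Real.exp (-(y * v)) : ℝ) : ℂ) * (rh X t 2 v * (v : ℂ)⁻¹))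
      ((volume.restrict (Ioi 0)).prod (volume.restrict (Ioi 0))) := by
    rw [integrable_prod_iff (Measurable.aestronglyMeasurable (by
      unfold Function.uncurry; fun_prop))]
    constructor
    · rw [ae_restrict_iff' measurableSet_Ioi]
      refine Eventually.of_forall fun v hv => ?_
      have := (mel_e (r := v) hv (w := 1) (by simp)).1
      simp only [sub_self, Complex.cpow_zero, one_mul] at this
      simpa only [Function.uncurry, mul_comm v] using this.mul_const _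
    · refine hi.norm.congr ?_
      rw [EventuallyEq, ae_restrict_iff' measurableSet_Ioi]
      refine Eventually.of_forall fun v hv => ?_
      have hv' : 0 < v := hv
      simp only [Function.uncurry, norm_mul (((Real.exp _ : ℝ) : ℂ)), Complex.norm_real,
        Real.norm_of_nonneg (Real.exp_pos _).le]
      rw [integral_mul_const, e v hv, norm_mul, norm_inv, Complex.norm_real,
        Real.norm_of_nonneg hv'.le]
  have h := integral_integral_swap hp
  rw [← (integral_W X t).2, ← setIntegral_congr_fun measurableSet_Ioi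
    fun y (hy : y ∈ Ioi (0 : ℝ)) => int_left (r := y) hy X t, ← h]
  refine setIntegral_congr_fun measurableSet_Ioi fun v hv => ?_
  rw [integral_mul_const, integral_complex_ofReal, e v hv, ofReal_inv]

/-- Smooth Poisson summation, positive abscissae. -/
theorem poisson_pos {ι κ : Type*} [Countable ι] [Countable κ] {a : ι → ℂ} {r : ι → ℝ} {b : κ → ℂ}
    {r' : κ → ℝ} {c : ℂ} (hr : ∀ i, 0 < r i) (hr' : ∀ j, 0 < r' j)
    (ha : Summable fun i => ‖a i‖ * r i ^ (-2 : ℝ)) (hb : Summable fun j => ‖b j‖ * r' j ^ (-2 : ℝ))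
    (h : ∀ v : ℝ, 0 < v → ∑' i, a i * ((Real.exp (-(r i / v)) : ℝ) : ℂ) =
      v * (c + ∑' j, b j * ((Real.exp (-(r' j * v)) : ℝ) : ℂ))) (hX : 0 < X) (t : ℝ) :
    ∑' i, a i * W X t (r i) = c * Wt X t 1 + (X : ℂ) ^ (1 / 2 + t * I) *
      ∑' j, b j * ((√(r' j))⁻¹ : ℝ) * K1 t (r' j * X) := by
  obtain ⟨C1, hC1⟩ := norm_rh_le X t (σ := 2) (by norm_num) (by norm_num)
  obtain ⟨C2, hC2⟩ := norm_rh_le X t (σ := -1) (by norm_num) (by norm_num)
  have m1 := measurable_rh X t 2
  obtain ⟨i1, k1⟩ := tsum_int_e hr ha (g := fun v => rh X t 2 v * (v : ℂ)⁻¹) (by fun_prop)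
    (C := C1) fun v hv => by
      rw [norm_mul, norm_inv, Complex.norm_real, Real.norm_of_nonneg hv.le, ← div_eq_mul_inv,
        div_le_iff₀ hv]
      exact (hC1 v hv).trans (le_of_eq (by rw [Real.rpow_two]; ring))
  obtain ⟨-, k2⟩ := tsum_int_e hr' hb (g := fun v => rh X t 2 v⁻¹) (by fun_prop) (C := C2)
    fun v hv => by simpa [Real.rpow_neg_one] using hC2 _ (inv_pos.2 hv)
  simp only [int_left (hr _), int_right (hr' _) hX t (σ := 1 / 2) (by norm_num)
    (by norm_num)] at k1 k2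
  obtain ⟨i3, k3⟩ := int_pole X t
  set F : ℝ → ℂ := fun v => ((∑' i, a i * ((Real.exp (-(r i * v)) : ℝ) : ℂ)) - c * (v : ℂ)⁻¹) *
    rh X t 2 v with hF
  have k4 := mellin_comp_inv F 0
  simp only [neg_zero, mellin, zero_sub, Complex.cpow_neg_one, smul_eq_mul] at k4
  rw [k1, ← k3, ← sub_eq_iff_eq_add', ← integral_const_mul, ← integral_sub i1 (i3.const_mul c)]
  calc _ = ∫ v in Ioi (0 : ℝ), (v : ℂ)⁻¹ * F v :=
        integral_congr_ae (Eventually.of_forall fun v => by simp only [hF]; ring)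
    _ = ∫ v in Ioi (0 : ℝ), (∑' j, b j * ((Real.exp (-(r' j * v)) : ℝ) : ℂ)) * rh X t 2 v⁻¹ := by
        rw [← k4]
        refine setIntegral_congr_fun measurableSet_Ioi fun v hv => ?_
        have hv' : 0 < v := hv
        have hv0 : (v : ℂ) ≠ 0 := ofReal_ne_zero.2 hv'.ne'
        simp only [hF, ← div_eq_mul_inv (r _)]
        rw [h v hv', ofReal_inv, inv_inv]
        generalize ∑' j, b j * ((Real.exp (-(r' j * v)) : ℝ) : ℂ) = S
        field_simp
        ring
    _ = _ := by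
        rw [← k2, ← tsum_mul_left]
        exact tsum_congr fun j => by rw [K1]; ring

end Pool.Agent.P.MP_323ce2_nt.QF
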