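import Pool.Agent.P.MP_323ce2_nt.QF.St
import Pool.Agent.P.MP_26a8c3_nt.QO.FT

/-! The density of primary elements prime to the modulus. -/

namespace Pool.Agent.P.MP_323ce2_nt.QF

open Pool.Agent.P.MP_26a8c3_nt Pool.Agent.P.MP_26a8c3_nt.QO Pool.Agent.P.MP_26a8c3_nt.QA
open Pool.Agent.P.MP_323ce2_nt.QZ
open scoped Classical ComplexConjugate

lemma den_cop_mul (a b h : O) : cop (a * b) h = cop a h * cop b h := by
  simp only [cop, IsCoprime.mul_right_iff]
  by_cases h1 : IsCoprime h a <;> by_cases h2 : IsCoprime h b <;> simp [h1, h2]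

lemma den_cop_congr {q x y : O} (e : q ∣ x - y) (h : IsCoprime y q) : IsCoprime x q := by
  obtain ⟨t, ht⟩ := e
  have : x = y + q * t := by rw [← ht]; ring
  rw [this]; exact h.add_mul_left_left t

lemma den_per_cop (q : O) : Per q (cop q) := fun x y e => by
  have : IsCoprime x q ↔ IsCoprime y q :=
    ⟨den_cop_congr (dvd_sub_comm.1 e), den_cop_congr e⟩
  simp only [cop, this]

lemma den_per_uL {q : O} (h3 : 3 ∣ q) : Per q (uL (cop q)) := fun x y e => by
  have : Primary x ↔ Primary y :=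
    ⟨fun h => h.of_dvd_sub (h3.trans (dvd_sub_comm.1 e)), fun h => h.of_dvd_sub (h3.trans e)⟩
  simp only [uL, this, den_per_cop q x y e]

lemma den_sm_cop {r : O} (hr : SQ r) :
    ∃ y : ℝ, sm r (cop r) = y * N r ∧ 1 ≤ y * dv r ∧ 0 ≤ y ∧ y ≤ 1 := by
  refine primary_ind (P := fun a => SQ a →
    ∃ y : ℝ, sm a (cop a) = y * N a ∧ 1 ≤ y * dv a ∧ 0 ≤ y ∧ y ≤ 1) ?_ ?_ hr.1 hr
  · intro _
    refine ⟨1, ?_, ?_, zero_le_one, le_rfl⟩
    · have : cop 1 = fun _ => 1 := by ext x; simp [cop, isCoprime_one_right]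
      rw [this, sm_const one_ne_zero]; simp
    · simp [dv, pdiv_one]
  · intro p a hp h1 ha ih hs
    obtain ⟨y, e, hy1, hy0, hy2⟩ := ih (hs.right h1)
    have hc := hs.coprime
    have hN : (2 : ℝ) ≤ N p := by exact_mod_cast two_le_N hp
    have hp1 : p ≠ 1 := fun h => hp.not_isUnit (h ▸ isUnit_one)
    have hd : dv p = 2 := by
      rw [dv, pdiv_prime hp h1, Finset.card_pair hp1.symm]; norm_num
    have hi : (N p : ℝ)⁻¹ ≤ 1 / 2 := by rw [one_div]; exact inv_anti₀ (by norm_num) hN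
    have hi0 : (0 : ℝ) ≤ (N p : ℝ)⁻¹ := by positivity
    refine ⟨(1 - (N p : ℝ)⁻¹) * y, ?_, ?_, mul_nonneg (by linarith) hy0, ?_⟩
    · have e1 : sm p (cop p) = N p - 1 := by rw [← ft_zero, ft_cop hp]; simp
      have h0 : (N p : ℂ) ≠ 0 := by exact_mod_cast (N_pos hp.ne_zero).ne'
      rw [sm_congr (den_cop_mul p a), sm_crt_mul hp.ne_zero ha.ne_zero hc (den_per_cop p)
        (den_per_cop a), e1, e, map_mul]
      push_cast; field_simp
    · rw [dv_mul hp.ne_zero ha.ne_zero hc, hd]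
      have : 0 ≤ y * dv a := by linarith
      nlinarith
    · nlinarith

lemma den_sm_uL {q : O} (hq : q ≠ 0) (h3 : 3 ∣ q) :
    ∃ z : ℝ, sm q (uL (cop q)) = z ∧ 1 ≤ z ∧ z ≤ N q := by
  refine ⟨∑ x ∈ res q, if Primary x ∧ IsCoprime x q then 1 else 0, ?_, ?_, ?_⟩
  · rw [sm_eq_res hq]; push_cast
    refine Finset.sum_congr rfl fun x _ => ?_
    by_cases h1 : Primary x <;> by_cases h2 : IsCoprime x q <;> simp [uL, cop, h1, h2]
  · obtain ⟨a, ha, e⟩ := res_surj hq 1
    have h1 : Primary a := primary_one.of_dvd_sub (h3.trans (dvd_sub_comm.1 e))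
    have h2 : IsCoprime a q := den_cop_congr (dvd_sub_comm.1 e) isCoprime_one_left
    refine le_trans ?_ (Finset.single_le_sum
      (f := fun x => if Primary x ∧ IsCoprime x q then (1 : ℝ) else 0)
      (fun x _ => by positivity) ha)
    simp [h1, h2]
  · refine (Finset.sum_le_card_nsmul _ _ 1 fun x _ => ?_).trans ?_
    · split_ifs <;> norm_num
    · rw [card_res]; simp

theorem pDen : S_Den := by
  intro q ε hq h3 hε
  obtain ⟨C, hC, H⟩ := dv_le hε
  obtain ⟨z, ez, hz1, hz2⟩ := den_sm_uL hq h3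
  have hNq := N_pos_real hq
  refine ⟨C * N q, by positivity, fun r hr hc => ?_⟩
  obtain ⟨y, ey, hy1, hy0, hy2⟩ := den_sm_cop hr
  have hNr := N_pos_real hr.ne_zero
  have hz0 : z / N q ≤ 1 := (div_le_one hNq).2 hz2
  refine ⟨z / N q * y, ?_, ?_, mul_le_one₀ hz0 hy0 hy2⟩
  · have e : ∀ x, uL (cop (q * r)) x = uL (cop q) x * cop r x := fun x => by
      simp only [uL, den_cop_mul]; split_ifs <;> simp
    have h0 : (N q : ℂ) ≠ 0 := by exact_mod_cast (N_pos hq).ne'
    rw [sm_congr e, sm_crt_mul hq hr.ne_zero hc (den_per_uL h3) (den_per_cop r), ez, ey, map_mul]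
    push_cast; field_simp
  · have hp : 0 < (N r : ℝ) ^ ε := Real.rpow_pos_of_pos hNr ε
    have e : C * N q * (z / N q * y) = C * y * z := by field_simp
    rw [e, Real.rpow_neg hNr.le, inv_le_iff_one_le_mul₀ hp]
    have h1 : 1 ≤ y * (C * (N r : ℝ) ^ ε) :=
      hy1.trans (mul_le_mul_of_nonneg_left (H r hr.ne_zero) hy0)
    nlinarith

end Pool.Agent.P.MP_323ce2_nt.QF
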