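import Pool.Agent.P.MP_323ce2_nt.QF.St
import Pool.Agent.P.MP_26a8c3_nt.QO.FT
import Pool.Agent.P.MP_26a8c3_nt.QO.Ker

/-! Finite Fourier transforms of products of local characters; the dual coefficients. -/

namespace Pool.Agent.P.MP_323ce2_nt.QF

open Pool.Agent.P.MP_26a8c3_nt Pool.Agent.P.MP_26a8c3_nt.QO Pool.Agent.P.MP_26a8c3_nt.QO.Ker
open Pool.Agent.P.MP_323ce2_nt.QZ Finset
open scoped Classical ComplexConjugate

lemma cop_pr {p : O} {E : Finset O} (h : Gd (insert p E)) (hp : p ∉ E) : IsCoprime p (pr E) :=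
  have h1 := h p (mem_insert_self p E)
  h1.1.coprime_iff_not_dvd.2 fun e => hp ((dvd_pr (h.mono (subset_insert p E)) h1.1 h1.2).1 e)

lemma isNu_prod {E : Finset O} (h : Gd E) {ρ : O → O → ℂ} (hρ : ∀ p ∈ E, IsNu p (ρ p)) :
    IsNu (pr E) fun x => ∏ p ∈ E, ρ p x := by
  refine ⟨prod_eq_one fun p hp => (hρ p hp).one, fun a b => ?_, fun x y e => ?_, fun a e => ?_,
    fun a => ?_⟩
  · rw [← prod_mul_distrib]; exact prod_congr rfl fun p hp => (hρ p hp).mul a b
  · exact prod_congr rfl fun p hp => (hρ p hp).per x y ((dvd_prod_of_mem _ hp).trans e)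
  · obtain ⟨p, h1, h2, h3, h4⟩ := (not_coprime_iff (pr_ne h)).1 e
    have h5 := h2.primary fun e => (pr_primary h).not_lam_dvd (e.trans h3)
    have h6 := (dvd_pr h h1 h5).1 h3
    exact prod_eq_zero h6 ((hρ p h6).zero a fun e => h1.not_isUnit (e.isUnit_of_dvd' h4 dvd_rfl))
  · rw [norm_prod]; exact prod_le_one (fun _ _ => norm_nonneg _) fun p hp => (hρ p hp).le a

lemma norm_ft_scale {q : O} {ρ : O → ℂ} (hρ : IsNu q ρ) (u h : O) :
    ‖ft (fun x => ρ (u * x)) q h‖ ≤ ‖ft ρ q h‖ := by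
  simp only [hρ.mul, ft_mul_left, norm_mul]
  exact mul_le_of_le_one_left (norm_nonneg _) (hρ.le u)

lemma ft_prod {E : Finset O} (h : Gd E) {ρ : O → O → ℂ} (hρ : ∀ p ∈ E, IsNu p (ρ p)) (x : O) :
    ‖ft (fun y => ∏ p ∈ E, ρ p y) (pr E) x‖ ≤ ∏ p ∈ E, ‖ft (ρ p) p x‖ := by
  induction E using Finset.induction_on with
  | empty => simpa [pr] using norm_ft_le (F := fun _ => 1) one_ne_zero (B := 1) (by simp) x
  | insert p E hp ih =>
    have hE := h.mono (subset_insert p E)
    have h1 := h p (mem_insert_self p E)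
    have h2 := hρ p (mem_insert_self p E)
    have h3 : ∀ q ∈ E, IsNu q (ρ q) := fun q hq => hρ q (mem_insert_of_mem hq)
    have h4 := isNu_prod hE h3
    have e : pr (insert p E) = p * pr E := prod_insert hp
    simp only [prod_insert hp]
    rw [e, ft_crt' h1.1.ne_zero (pr_ne hE) (cop_pr h hp) h2.per h4.per, norm_mul]
    exact mul_le_mul (norm_ft_scale h2 _ _) ((norm_ft_scale h4 _ _).trans (ih hE h3))
      (norm_nonneg _) (norm_nonneg _)

lemma prod_ite_le {E : Finset O} (h : Gd E) (x : O) :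
    ∏ p ∈ E, (if p ∣ x then (N p : ℝ) else 1) ≤ N (gcd (pr E) x) := by
  have h1 := h.mono (filter_subset (· ∣ x) E)
  have h2 : pr (E.filter (· ∣ x)) ∣ gcd (pr E) x := by
    refine dvd_gcd (prod_dvd_prod_of_subset _ _ _ (filter_subset _ _)) ?_
    refine Finset.prod_dvd_of_coprime (fun p hp q hq hne => ?_) fun p hp => (mem_filter.1 hp).2
    refine (h1 p hp).1.coprime_iff_not_dvd.2 fun hd => hne ?_
    exact (h1 p hp).2.eq_of_associated (h1 q hq).2 ((h1 p hp).1.associated_of_dvd (h1 q hq).1 hd)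
  have h3 := N_le_of_dvd h2 (gcd_ne_zero_of_left (pr_ne h))
  rw [← prod_filter]
  rw [pr, map_prod] at h3
  exact_mod_cast h3

lemma norm_ft_cop {p : O} (hp : Prime p) (x : O) :
    ‖ft (cop p) p x‖ ≤ if p ∣ x then (N p : ℝ) else 1 := by
  rw [ft_cop hp]
  split_ifs
  · have := one_le_N hp.ne_zero
    rw [show (N p : ℂ) - 1 = ((N p - 1 : ℝ) : ℂ) by push_cast; rfl, Complex.norm_real,
      Real.norm_of_nonneg (by linarith)]
    linarith
  · simp

lemma one_le_ab {p : O} (hp : p ≠ 0) : 1 ≤ ab p := by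
  rw [ab_eq]; exact Real.one_le_sqrt.2 (one_le_N hp)

lemma norm_ft_nu {p : O} (hp : Prime p) {ρ : O → ℂ} (hρ : IsNu p ρ) (x : O) :
    ‖ft ρ p x‖ ≤ ab p * √(if p ∣ x then (N p : ℝ) else 1) := by
  have h1 := one_le_ab hp.ne_zero
  by_cases hn : ρ = cop p
  · refine (hn ▸ norm_ft_cop hp x).trans ?_
    split_ifs
    · rw [← ab_eq, ← sq, ab_sq]
    · simpa using h1
  · rw [ft_nu_prime hp hρ hn, norm_mul, norm_ft_prime hp hρ hn, Complex.norm_conj, mul_comm]
    refine mul_le_mul_of_nonneg_left ((hρ.le x).trans (Real.one_le_sqrt.2 ?_)) (ab_nonneg p)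
    split_ifs
    exacts [one_le_N hp.ne_zero, le_rfl]

/-- the bound for a product of local characters -/
lemma ft_prod_le {E : Finset O} (h : Gd E) {ρ : O → O → ℂ} (hρ : ∀ p ∈ E, IsNu p (ρ p)) (x : O) :
    ‖ft (fun y => ∏ p ∈ E, ρ p y) (pr E) x‖ ≤ ab (pr E) * ab (gcd (pr E) x) := by
  refine (ft_prod h hρ x).trans ((prod_le_prod (fun _ _ => norm_nonneg _)
    fun p hp => norm_ft_nu (h p hp).1 (hρ p hp) x).trans ?_)
  rw [prod_mul_distrib, ← Real.sqrt_prod _ (fun p _ => by split_ifs <;> positivity),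
    ab_eq (gcd (pr E) x)]
  refine mul_le_mul (le_of_eq ?_) (Real.sqrt_le_sqrt (prod_ite_le h x)) (Real.sqrt_nonneg _)
    (ab_nonneg _)
  simp [pr, ab]

lemma ft_cop_le {r : O} (hr : SQ r) (x : O) : ‖ft (cop r) r x‖ ≤ N (gcd r x) := by
  obtain ⟨E, hE, rfl⟩ := exists_pr hr
  have e : cop (pr E) = fun y => ∏ p ∈ E, cop p y := by
    funext y
    rw [← ext_cop (pr_ne hE), ext_pr hE]
    exact prod_congr rfl fun p hp => (cop_prime (hE p hp).1 y).symm
  rw [e]
  exact (ft_prod hE (fun p _ => isNu_cop p) x).trans ((prod_le_prod (fun _ _ => norm_nonneg _)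
    fun p hp => norm_ft_cop (hE p hp).1 x).trans (prod_ite_le hE x))

lemma uL_mul {φ : O → ℂ} (h : Mul1 φ) {u : O} (hu : Primary u) (x : O) :
    uL φ (x * u) = φ u * uL φ x := by
  unfold uL
  by_cases hx : Primary x
  · rw [if_pos hx, if_pos (hx.mul hu), h.mul _ _ hx hu, mul_comm]
  · rw [if_neg hx, if_neg fun e => hx ((mul_comm x u ▸ e).of_mul hu), mul_zero]

lemma per_primary {q : O} (hq : 3 ∣ q) {x y : O} (e : q ∣ x - y) : Primary x ↔ Primary y :=
  ⟨fun h => h.of_dvd_sub (dvd_sub_comm.1 (hq.trans e)), fun h => h.of_dvd_sub (hq.trans e)⟩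

lemma Fl.mul_conj {φ : O → ℂ} {q r u : O} (h : Fl φ q r) (hu : Primary u)
    (hc : IsCoprime u (q * r)) : φ u * conj (φ u) = 1 := by
  obtain ⟨c, d, e⟩ := hc
  have h0 : q * r ∣ c * u - 1 := ⟨-d, by linear_combination e⟩
  have h1 : Primary (c * u) := (per_primary (h.q3.mul_right r) h0).2 primary_one
  have hc : Primary c := (mul_comm c u ▸ h1).of_mul hu
  have h2 := h.per _ _ h0
  rw [uL, uL, if_pos h1, if_pos primary_one, h.mul.one, h.mul.mul _ _ hc hu] at h2
  have h3 := congrArg norm h2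
  rw [norm_mul, norm_one] at h3
  have h4 : ‖φ u‖ = 1 := by
    nlinarith [h.mul.le u, h.mul.le c, norm_nonneg (φ u), norm_nonneg (φ c)]
  rw [Complex.mul_conj, Complex.normSq_eq_norm_sq, h4]; simp

theorem pMul : S_Mul := by
  intro φ q r h
  have k1 : ∀ u x, Primary u → IsCoprime u (q * r) →
      ft (uL φ) (q * r) (x * u) = ft (uL φ) (q * r) x * conj (φ u) := fun u x hu hc => by
    rw [← ft_scale h.per hc x]
    simp only [uL_mul h.mul hu, ft_mul_left]
    rw [mul_right_comm, h.mul_conj hu hc, one_mul]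
  refine ⟨k1, fun ⟨u, hu, hc, h1⟩ => ?_, fun h1 x => ?_⟩
  · have h2 := k1 u 0 hu hc
    rw [zero_mul] at h2
    have h3 : ft (uL φ) (q * r) 0 * (conj (φ u) - 1) = 0 := by linear_combination -h2
    refine (mul_eq_zero.1 h3).resolve_right fun e => h1 ?_
    simpa using congrArg conj (sub_eq_zero.1 e)
  · have e : uL φ = fun y => uL (cop q) y * cop r y := by
      funext y
      unfold uL
      split_ifs with hy
      · by_cases hc : IsCoprime y (q * r)
        · rw [h1 y hy hc, cop_of hc.of_mul_right_left, cop_of hc.of_mul_right_right, one_mul]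
        · rw [h.zero y hy hc]
          by_cases hq : IsCoprime y q
          · rw [cop_of_not fun e => hc (hq.mul_right e), mul_zero]
          · rw [cop_of_not hq, zero_mul]
      · rw [zero_mul]
    have hP : Per q (uL (cop q)) := fun a b e => by
      unfold uL
      rw [(isNu_cop q).per a b e]
      exact if_congr (per_primary h.q3 e) rfl rfl
    rw [e, ft_crt' h.q0 h.sq.1.ne_zero h.cop hP (isNu_cop r).per, norm_mul]
    refine mul_le_mul ((norm_ft_le h.q0 (B := 1) (fun y => ?_) x).trans (by simp))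
      ((norm_ft_scale (isNu_cop r) _ _).trans (ft_cop_le h.sq x)) (norm_nonneg _) (by positivity)
    unfold uL
    split_ifs
    exacts [(isNu_cop q).le _, by simp]

end Pool.Agent.P.MP_323ce2_nt.QF
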