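import Pool.Agent.P.MP_323ce2_nt.QF.St

/-! Splitting of a sum over nonzero elements into a smooth part and a primary part. -/

namespace Pool.Agent.P.MP_323ce2_nt.QF

open Pool.Agent.P.MP_26a8c3_nt Pool.Agent.P.MP_26a8c3_nt.QO
open scoped Classical

namespace RixP

lemma split0 (n₀ : O) (h : O) : h ≠ 0 → ∃ g n, Sup n₀ g ∧ IsCoprime n n₀ ∧ h = g * n := by
  refine UniqueFactorizationMonoid.induction_on_prime h (fun e => absurd rfl e)
    (fun u hu _ => ⟨u, 1, ⟨0, hu.dvd⟩, isCoprime_one_left, (mul_one u).symm⟩) ?_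
  intro a p ha hp ih _
  obtain ⟨g, n, ⟨k, hk⟩, hn, rfl⟩ := ih ha
  by_cases e : p ∣ n₀
  · exact ⟨p * g, n, ⟨k + 1, by rw [pow_succ']; exact mul_dvd_mul e hk⟩, hn, by ring⟩
  · exact ⟨g, p * n, ⟨k, hk⟩, (hp.irreducible.coprime_iff_not_dvd.2 e).mul_left hn, by ring⟩

lemma split {n₀ : O} (h3 : 3 ∣ n₀) {h : O} (h0 : h ≠ 0) :
    ∃ g n, Sup n₀ g ∧ (Primary n ∧ IsCoprime n n₀) ∧ g * n = h := by
  obtain ⟨g, n, ⟨k, hk⟩, hn, rfl⟩ := split0 n₀ h h0
  have h1 : ¬ lam ∣ n := fun e =>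
    primary_one.not_lam_dvd (hn.isUnit_of_dvd' e (lam_dvd_three.trans h3)).dvd
  obtain ⟨u, hu, hp⟩ := exists_primary h1
  obtain ⟨v, rfl⟩ := hu
  refine ⟨g * ↑v⁻¹, v * n, ⟨k, Units.mul_right_dvd.2 hk⟩,
    ⟨hp, (isCoprime_mul_unit_left_left v.isUnit _ _).2 hn⟩, ?_⟩
  rw [mul_assoc, Units.inv_mul_cancel_left]

lemma inj (n₀ : O) : Function.Injective
    fun p : {g // Sup n₀ g} × {n : O // Primary n ∧ IsCoprime n n₀} => p.1.1 * p.2.1 := by
  rintro ⟨⟨g, k, hk⟩, n, hn, cn⟩ ⟨⟨g', k', hk'⟩, n', hn', cn'⟩ e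
  have e : g * n = g' * n' := e
  have c1 : IsCoprime n g' := cn.pow_right.of_isCoprime_of_dvd_right hk'
  have c2 : IsCoprime n' g := cn'.pow_right.of_isCoprime_of_dvd_right hk
  obtain rfl : n = n' := hn.eq_of_associated hn' (associated_of_dvd_dvd
    (c1.dvd_of_dvd_mul_left (e ▸ dvd_mul_left _ _))
    (c2.dvd_of_dvd_mul_left (e ▸ dvd_mul_left _ _)))
  obtain rfl : g = g' := mul_right_cancel₀ hn.ne_zero e
  rfl

end RixP

theorem pRix : S_Rix := by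
  intro n₀ f b β _ h3 f0 hf hb hβ
  have hs := hf.comp_injective (RixP.inj n₀)
  rw [← (RixP.inj n₀).tsum_eq (f := f) fun h hh => by
    obtain ⟨g, n, a1, a2, a3⟩ := RixP.split h3 (h := h) fun e => hh (e ▸ f0)
    exact ⟨(⟨g, a1⟩, ⟨n, a2⟩), a3⟩]
  have e := hs.tsum_prod
  simp only [Function.comp_apply] at e
  rw [e]
  refine le_of_tendsto' (continuous_norm.continuousAt.tendsto.comp hs.prod.hasSum) fun T => ?_
  refine (norm_sum_le _ _).trans (le_trans (Finset.sum_le_sum fun g _ => ?_)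
    ((Finset.sum_map T (Function.Embedding.subtype _) b).symm.le.trans (hβ _ fun g hg => ?_)))
  · refine le_trans (le_of_eq (congrArg _ ?_)) (hb g.1 g.2)
    refine (tsum_subtype {n : O | Primary n ∧ IsCoprime n n₀} fun n => f (g.1 * n)).trans ?_
    exact tsum_congr fun n => by simp [Set.indicator_apply]
  · obtain ⟨a, -, rfl⟩ := Finset.mem_map.1 hg
    exact a.2

end Pool.Agent.P.MP_323ce2_nt.QF
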