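import Pool.Agent.P.MP_323ce2_nt.QF.St

/-! The total weight of the smooth part of the dual variable. -/

namespace Pool.Agent.P.MP_323ce2_nt.QF

open Pool.Agent.P.MP_26a8c3_nt Pool.Agent.P.MP_26a8c3_nt.QO
open Finset
open scoped Classical

namespace WtAux

theorem one_le_ab {x : O} (h : x ≠ 0) : 1 ≤ ab x := by
  rw [ab_eq]
  exact Real.one_le_sqrt.2 (one_le_N h)

theorem sq_mul_sqf (g : O) : g ≠ 0 → ∃ a b : O, b ^ 2 * a = g ∧ Squarefree a := by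
  induction g using (wellFounded_dvdNotUnit (α := O)).induction with
  | _ g ih =>
  intro h0
  by_cases h : Squarefree g
  · exact ⟨g, 1, by simp, h⟩
  simp only [Squarefree, not_forall] at h
  obtain ⟨x, ⟨y, e⟩, hx⟩ := h
  have hy : y ≠ 0 := fun h => h0 (by rw [e, h, mul_zero])
  obtain ⟨a, b, e1, ha⟩ :=
    ih y ⟨hy, x * x, fun h => hx (isUnit_of_mul_isUnit_left h), by rw [e, mul_comm]⟩ hy
  exact ⟨a, x * b, by rw [e, ← e1]; ring, ha⟩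

/-- the decomposition of a divisor of a power of `n` -/
theorem decomp {n r g : O} (hn : n ≠ 0) (hr : r ∣ n) (hg : Sup n g) :
    ∃ x : (O × O × O) × O, x.1.1 ∣ n ∧ x.1.2.1 ∣ n ∧ x.1.2.2 ∣ n ∧
      g = x.1.1 * (x.2 ^ 4 * x.1.2.2 ^ 2 * x.1.2.1) ∧
      ab (gcd r g) / ab g ≤ (N x.2 : ℝ) ^ (-(2 : ℝ)) := by
  obtain ⟨k, hk⟩ := hg
  have hk' : g ∣ n ^ (k + 1) := hk.trans (pow_dvd_pow n k.le_succ)
  have h0 : g ≠ 0 := ne_zero_of_dvd_ne_zero (pow_ne_zero _ hn) hk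
  obtain ⟨g₁, e⟩ := gcd_dvd_right r g
  have h1 : g₁ ≠ 0 := fun h => h0 (by rw [e, h, mul_zero])
  have hd : gcd r g ≠ 0 := fun h => h0 (by rw [e, h, zero_mul])
  obtain ⟨a, b, e1, ha⟩ := sq_mul_sqf g₁ h1
  obtain ⟨a', c, e2, ha'⟩ := sq_mul_sqf b fun h => h1 (by rw [← e1, h]; ring)
  have e3 : g₁ = c ^ 4 * a' ^ 2 * a := by rw [← e1, ← e2]; ring
  have d1 : g₁ ∣ n ^ (k + 1) := (Dvd.intro_left _ e.symm).trans hk'
  have hc : c ≠ 0 := fun h => h1 (by rw [e3, h]; ring)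
  refine ⟨((gcd r g, a, a'), c), (gcd_dvd_left r g).trans hr,
    (ha.dvd_pow_iff_dvd k.succ_ne_zero).1 ((Dvd.intro_left _ e3.symm).trans d1),
    (ha'.dvd_pow_iff_dvd k.succ_ne_zero).1 (Dvd.dvd.trans ⟨c ^ 4 * a' * a, by rw [e3]; ring⟩ d1),
    by rw [← e3]; exact e, ?_⟩
  have e4 : ab g = ab (gcd r g) * ((N c : ℝ) ^ 2 * (ab a' ^ 2 * ab a)) := by
    conv_lhs => rw [e, e3]
    rw [ab_mul, ab_mul, ab_mul, ab_pow, ab_pow, ← ab_sq c]
    ring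
  have p1 := ab_pos hd
  have p2 := N_pos_real hc
  have p3 : 1 ≤ ab a' ^ 2 * ab a :=
    one_le_mul_of_one_le_of_one_le (one_le_pow₀ (one_le_ab ha'.ne_zero)) (one_le_ab ha.ne_zero)
  change _ ≤ (N c : ℝ) ^ (-(2 : ℝ))
  rw [e4, Real.rpow_neg p2.le, Real.rpow_two, div_mul_cancel_left₀ p1.ne']
  exact inv_anti₀ (by positivity) (le_mul_of_one_le_right (by positivity) p3)

end WtAux

theorem pWt : S_Wt := by
  intro q ε hq hε
  obtain ⟨C, hC, H⟩ := card_all_div_le (ε := ε / 3) (by positivity)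
  have hz : 0 < zt 2 := one_pos.trans_le (one_le_zt one_lt_two)
  have hq' := N_pos_real hq
  refine ⟨C ^ 3 * (N q : ℝ) ^ ε * zt 2, by positivity, fun r T hr hT => ?_⟩
  have hn : q * r ≠ 0 := mul_ne_zero hq hr.ne_zero
  have H1 := H _ hn
  set D := (ball (N (q * r))).filter (· ∣ q * r) with hD
  have mD : ∀ x, x ∣ q * r → x ∈ D := fun x hx =>
    mem_filter.2 ⟨mem_ball.2 (by exact_mod_cast N_le_of_dvd hx hn), hx⟩
  have key : ∀ g : O, ∃ x : (O × O × O) × O, g ∈ T → x.1 ∈ D ×ˢ D ×ˢ D ∧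
      g = x.1.1 * (x.2 ^ 4 * x.1.2.2 ^ 2 * x.1.2.1) ∧
      ab (gcd r g) / ab g ≤ (N x.2 : ℝ) ^ (-(2 : ℝ)) := fun g => by
    by_cases hg : g ∈ T
    · obtain ⟨x, h1, h2, h3, h4⟩ := WtAux.decomp hn (dvd_mul_left r q) (hT g hg)
      exact ⟨x, fun _ => ⟨mem_product.2 ⟨mD _ h1, mem_product.2 ⟨mD _ h2, mD _ h3⟩⟩, h4⟩⟩
    · exact ⟨0, fun h => absurd h hg⟩
  choose f hf using key
  have e : (C * (N (q * r) : ℝ) ^ (ε / 3)) ^ 3 = C ^ 3 * (N q : ℝ) ^ ε * (N r : ℝ) ^ ε := by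
    rw [mul_pow, ← Real.rpow_natCast (_ ^ _), ← Real.rpow_mul (Nat.cast_nonneg _), map_mul,
      Nat.cast_mul, Real.mul_rpow (Nat.cast_nonneg _) (Nat.cast_nonneg _), mul_assoc]
    norm_num
  calc _ ≤ ∑ g ∈ T, (N (f g).2 : ℝ) ^ (-(2 : ℝ)) := sum_le_sum fun g hg => (hf g hg).2.2
    _ = ∑ x ∈ T.image f, (N x.2 : ℝ) ^ (-(2 : ℝ)) :=
        (sum_image (f := fun x : (O × O × O) × O => (N x.2 : ℝ) ^ (-(2 : ℝ)))
          fun g hg g' hg' h => by rw [(hf g hg).2.1, (hf g' hg').2.1, h]).symm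
    _ ≤ ∑ x ∈ (D ×ˢ D ×ˢ D) ×ˢ T.image fun g => (f g).2, (N x.2 : ℝ) ^ (-(2 : ℝ)) := by
        refine sum_le_sum_of_subset_of_nonneg (fun x hx => ?_) fun _ _ _ => by positivity
        obtain ⟨g, hg, rfl⟩ := mem_image.1 hx
        exact mem_product.2 ⟨(hf g hg).1, mem_image_of_mem _ hg⟩
    _ = (D.card : ℝ) ^ 3 * ∑ c ∈ T.image fun g => (f g).2, (N c : ℝ) ^ (-(2 : ℝ)) := by
        rw [sum_product]
        dsimp only
        rw [sum_const, card_product, card_product, nsmul_eq_mul]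
        push_cast
        ring
    _ ≤ (C * (N (q * r) : ℝ) ^ (ε / 3)) ^ 3 * zt 2 :=
        mul_le_mul (pow_le_pow_left₀ (Nat.cast_nonneg _) H1 3) (sum_le_zt one_lt_two _)
          (sum_nonneg fun _ _ => by positivity) (by positivity)
    _ = _ := by rw [e]; ring

end Pool.Agent.P.MP_323ce2_nt.QF
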