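import Pool.Agent.P.MP_323ce2_nt.QF.StC
import Pool.Agent.P.MP_323ce2_nt.QF.Mul
import Pool.Agent.P.MP_323ce2_nt.QF.Rix
import Pool.Agent.P.MP_323ce2_nt.QF.Wt
import Pool.Agent.P.MP_26a8c3_nt.QO.Poi

/-! The summation formula for a periodic twist and the bound for the dual sum. -/

namespace Pool.Agent.P.MP_323ce2_nt.QF

open Pool.Agent.P.MP_26a8c3_nt Pool.Agent.P.MP_26a8c3_nt.QO Pool.Agent.P.MP_26a8c3_nt.QA
open Pool.Agent.P.MP_323ce2_nt.QZ Complex Finset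
open scoped Classical ComplexConjugate

variable {J : ℝ → ℝ → ℂ} {φ : O → ℂ} {q r : O}

lemma uL_zero (φ : O → ℂ) : uL φ 0 = 0 := if_neg fun h => h.ne_zero rfl

lemma ab_zero : ab 0 = 0 := by simp [ab]

lemma norm_inv_ab (h : O) : ‖((ab h : ℝ) : ℂ)⁻¹‖ = (ab h)⁻¹ := by
  rw [norm_inv, norm_real, Real.norm_of_nonneg (ab_nonneg h)]

lemma inv_ab_le (h : O) : (ab h)⁻¹ ≤ nr h ^ (-(1 / 2) : ℝ) := by
  rcases eq_or_ne h 0 with rfl | h0
  · rw [ab_zero, inv_zero]; exact (Real.rpow_pos_of_pos (nr_pos _) _).le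
  · rw [nr_eq h0, ab_eq, Real.sqrt_eq_rpow, Real.rpow_neg (Nat.cast_nonneg _)]

lemma Fl.ne (h : Fl φ q r) : q * r ≠ 0 := mul_ne_zero h.q0 h.sq.1.ne_zero

lemma Fl.bdd (h : Fl φ q r) (x : O) : ‖QO.ft (uL φ) (q * r) x‖ ≤ N (q * r) := by
  simpa using norm_ft_le h.ne h.mul.uL x

/-- the dual sum -/
noncomputable def Ds (J : ℝ → ℝ → ℂ) (b : O → ℂ) (t β : ℝ) : ℂ :=
  ∑' h : O, b h * (ab h : ℂ)⁻¹ * J t (nr h * β)

lemma Fl.flip (h : Fl φ q r) (h1 : C1 J) {X : ℝ} (hX : 0 < X) (t : ℝ) :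
    ‖Wsum (uL φ) X t - (a0 / N (q * r) : ℝ) * QO.ft (uL φ) (q * r) 0 * Wt X t 1‖ =
      √X / (ab q * ab r) * ‖Ds J (QO.ft (uL φ) (q * r)) t (a0 ^ 2 * X / N (q * r))‖ := by
  rw [h1 (uL φ) (QO.ft (uL φ) (q * r)) (N (q * r)) (N (q * r)) (N_pos_real h.ne) (uL_zero φ)
    h.mul.uL h.bdd (fun P hP => poi h.ne h.per hP) X t hX, add_sub_cancel_left, norm_mul, norm_mul,
    norm_cpow_eq_rpow_re_of_pos hX, norm_inv, norm_real, Real.norm_of_nonneg (Real.sqrt_nonneg _),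
    ← ab_eq, ab_mul, Real.sqrt_eq_rpow, div_eq_mul_inv (X ^ (1 / 2 : ℝ))]
  congr 3
  simp

/-- termwise bound from the decay of the dual weight -/
lemma term_le {b : O → ℂ} {B K t β : ℝ} {A : ℕ} (hb : ∀ h, ‖b h‖ ≤ B) (hβ : 0 < β) (hK : 0 ≤ K)
    (hJ : ∀ y, 0 < y → ‖J t y‖ ≤ K / y ^ (A + 1)) (h : O) :
    ‖b h * (ab h : ℂ)⁻¹ * J t (nr h * β)‖ ≤ B * K / β ^ (A + 1) * nr h ^ (-(3 / 2) : ℝ) := by
  have h0 := nr_pos h
  have h1 := one_le_nr h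
  have hB : 0 ≤ B := (norm_nonneg _).trans (hb 0)
  have h2 : nr h ≤ nr h ^ (A + 1) := le_self_pow₀ h1 (by omega)
  rw [norm_mul, norm_mul, norm_inv_ab, show (-(3 / 2) : ℝ) = -(1 / 2) + -1 by norm_num,
    Real.rpow_add h0, Real.rpow_neg_one]
  calc _ ≤ B * nr h ^ (-(1 / 2) : ℝ) * (K / (nr h * β) ^ (A + 1)) := by
        have := ab_nonneg h
        gcongr
        exacts [hb h, inv_ab_le h, hJ _ (mul_pos h0 hβ)]
    _ ≤ B * nr h ^ (-(1 / 2) : ℝ) * (K / (nr h * β ^ (A + 1))) := by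
        rw [mul_pow]; gcongr
    _ = _ := by field_simp

lemma Ds_le {b : O → ℂ} {B K t β : ℝ} {A : ℕ} (hb : ∀ h, ‖b h‖ ≤ B) (hβ : 0 < β) (hK : 0 ≤ K)
    (hJ : ∀ y, 0 < y → ‖J t y‖ ≤ K / y ^ (A + 1)) : ‖Ds J b t β‖ ≤ B * K / β ^ (A + 1) * KO :=
  tsum_of_norm_bounded (summable_KO.hasSum.mul_left _) (term_le hb hβ hK hJ)

lemma summable_Ds (h2 : C2 J) {b : O → ℂ} {B β : ℝ} (hb : ∀ h, ‖b h‖ ≤ B) (hβ : 0 < β) (t : ℝ) :
    Summable fun h : O => b h * (ab h : ℂ)⁻¹ * J t (nr h * β) := by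
  obtain ⟨C, k, hC, h⟩ := h2 1
  exact Summable.of_norm_bounded (summable_KO.mul_left _)
    (term_le (A := 0) hb hβ (by positivity) fun y hy => (h t y hy).2)

/-- the dual sum in terms of sums with the conjugate coefficients -/
lemma Fl.dual (h : Fl φ q r) (h2 : C2 J) {t β T V : ℝ} (hβ : 0 < β)
    (hT : ∀ β', β ≤ β' → ‖Ds J (fun n => conj (uL φ n)) t β'‖ ≤ T)
    (hV : ∀ S : Finset O, (∀ g ∈ S, Sup (q * r) g) → ∑ g ∈ S, ab (gcd r g) / ab g ≤ V) :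
    ‖Ds J (QO.ft (uL φ) (q * r)) t β‖ ≤ N q * ab r * T * V := by
  have hT0 : 0 ≤ T := (norm_nonneg _).trans (hT β le_rfl)
  have hr := ab_nonneg r
  refine pRix (q * r) _ (fun g => N q * ab r * T * (ab (gcd r g) / ab g)) _ h.ne (h.q3.mul_right r)
    (by simp [ab_zero]) (summable_Ds h2 h.bdd hβ t) (fun g ⟨k, hg⟩ => ?_) fun S hS => ?_
  · have g0 : g ≠ 0 := ne_zero_of_dvd_ne_zero (pow_ne_zero k h.ne) hg
    have e : ∀ n : O, (if Primary n ∧ IsCoprime n (q * r) then QO.ft (uL φ) (q * r) (g * n) *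
        (ab (g * n) : ℂ)⁻¹ * J t (nr (g * n) * β) else 0) = QO.ft (uL φ) (q * r) g * (ab g : ℂ)⁻¹ *
        (conj (uL φ n) * (ab n : ℂ)⁻¹ * J t (nr n * (N g * β))) := fun n => by
      split_ifs with hn
      · rw [(pMul φ q r h).1 n g hn.1 hn.2, QB.nr_mul g0 hn.1.ne_zero, ab_mul, uL, if_pos hn.1,
          show N g * nr n * β = nr n * (N g * β) by ring]
        push_cast
        rw [mul_inv]; ring
      · by_cases h1 : Primary n
        · simp [uL, h.zero n h1 fun e => hn ⟨h1, e⟩]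
        · simp [uL, h1]
    rw [tsum_congr e, tsum_mul_left, norm_mul, norm_mul, norm_inv_ab]
    have h3 := hT (N g * β) (le_mul_of_one_le_left hβ.le (one_le_N g0))
    have h4 := ab_nonneg g
    have h5 := ab_nonneg (gcd r g)
    calc _ ≤ N q * (ab r * ab (gcd r g)) * (ab g)⁻¹ * T := by
          gcongr
          exacts [h.ft g, h3]
      _ = _ := by ring
  · rw [← mul_sum]
    exact mul_le_mul_of_nonneg_left (hV S hS) (by positivity)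

/-- the flip for one non principal twist -/
lemma Fl.main (h : Fl φ q r) (h1 : C1 J) (h2 : C2 J)
    (hn : ∃ u, Primary u ∧ IsCoprime u (q * r) ∧ φ u ≠ 1) {X t T V : ℝ} (hX : 0 < X)
    (hT : ∀ β', a0 ^ 2 * X / N (q * r) ≤ β' → ‖Ds J (fun n => conj (uL φ n)) t β'‖ ≤ T)
    (hV : ∀ S : Finset O, (∀ g ∈ S, Sup (q * r) g) → ∑ g ∈ S, ab (gcd r g) / ab g ≤ V) :
    ‖Wsum (uL φ) X t‖ ≤ √X * ab q * T * V := by
  have k := h.flip h1 hX t
  rw [(pMul φ q r h).2.1 hn, mul_zero, zero_mul, sub_zero] at k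
  have hq := ab_pos h.q0
  have hr := ab_pos h.sq.1.ne_zero
  have ha := a0_pos
  have hN := N_pos_real h.ne
  rw [k]
  refine (mul_le_mul_of_nonneg_left (h.dual h2 (by positivity) hT hV) (by positivity)).trans_eq ?_
  rw [← ab_sq q]
  field_simp

end Pool.Agent.P.MP_323ce2_nt.QF
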