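import Pool.Agent.P.MP_323ce2_nt.QF.St

/-! The dual sum in the principal case. -/

namespace Pool.Agent.P.MP_323ce2_nt.QF

open Finset Pool.Agent.P.MP_26a8c3_nt Pool.Agent.P.MP_26a8c3_nt.QO
open scoped Classical

namespace Gcd

lemma gcd_le {r : O} (hr : Primary r) (h : O) :
    (N (gcd r h) : ℝ) ≤ ∑ d ∈ pdiv r, if d ∣ h then (N d : ℝ) else 0 := by
  have h1 : normalize (gcd r h) ∈ pdiv r :=
    (mem_pdiv hr.ne_zero).2 ⟨hr.of_dvd (gcd_dvd_left r h), normalize_dvd_iff.2 (gcd_dvd_left r h)⟩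
  refine le_trans (le_of_eq ?_) (single_le_sum (f := fun d => if d ∣ h then (N d : ℝ) else 0)
    (fun d _ => by split_ifs <;> positivity) h1)
  rw [if_pos (normalize_dvd_iff.2 (gcd_dvd_right r h)), N_assoc (normalize_associated _)]

lemma one_div {d : O} (hd : d ≠ 0) {ε : ℝ} (hε : 0 < ε) (T : Finset O) :
    ∑ h ∈ T, (if d ∣ h then (N d : ℝ) else 0) * (N h : ℝ) ^ (-(1 + ε)) ≤ zt (1 + ε) := by
  have hd1 := one_le_N hd
  have hd0 : (0 : ℝ) < N d := by linarith
  have hinj : Set.InjOn (fun h => quo h d) (T.filter (d ∣ ·)) := fun a ha b hb e => by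
    rw [← mul_quo (mem_filter.1 (mem_coe.1 ha)).2, ← mul_quo (mem_filter.1 (mem_coe.1 hb)).2]
    exact congrArg (d * ·) e
  refine le_trans ?_ (sum_le_zt (by linarith) ((T.filter (d ∣ ·)).image fun h => quo h d))
  rw [sum_image hinj, sum_filter]
  refine sum_le_sum fun h _ => ?_
  split_ifs with hh
  · have e : (N h : ℝ) = N d * N (quo h d) := by
      conv_lhs => rw [← mul_quo hh, map_mul, Nat.cast_mul]
    rw [e, Real.mul_rpow hd0.le (Nat.cast_nonneg _), ← mul_assoc]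
    refine mul_le_of_le_one_left (by positivity) ?_
    have e2 : (N d : ℝ) * (N d : ℝ) ^ (-(1 + ε)) = (N d : ℝ) ^ (-ε) := by
      rw [mul_comm, ← Real.rpow_add_one hd0.ne']
      congr 1
      ring
    rw [e2]
    exact Real.rpow_le_one_of_one_le_of_nonpos hd1 (by linarith)
  · rw [zero_mul]

end Gcd

theorem pGcd : S_Gcd := by
  intro ε hε
  obtain ⟨C, hC, H⟩ := dv_le hε
  have hz : 1 ≤ zt (1 + ε) := one_le_zt (by linarith)
  refine ⟨C * zt (1 + ε), by positivity, fun r T hr _ => ?_⟩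
  calc _ ≤ ∑ h ∈ T, ∑ d ∈ pdiv r, (if d ∣ h then (N d : ℝ) else 0) * (N h : ℝ) ^ (-(1 + ε)) := by
        refine sum_le_sum fun h _ => ?_
        rw [← sum_mul]
        exact mul_le_mul_of_nonneg_right (Gcd.gcd_le hr.1 h) (by positivity)
    _ ≤ ∑ _d ∈ pdiv r, zt (1 + ε) := by
        rw [sum_comm]
        exact sum_le_sum fun d hd => Gcd.one_div ((mem_pdiv hr.1.ne_zero).1 hd).1.ne_zero hε T
    _ = dv r * zt (1 + ε) := by rw [sum_const, nsmul_eq_mul, dv]
    _ ≤ C * (N r : ℝ) ^ ε * zt (1 + ε) :=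
        mul_le_mul_of_nonneg_right (H r hr.1.ne_zero) (by linarith)
    _ = _ := by ring

end Pool.Agent.P.MP_323ce2_nt.QF
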