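import Pool.Agent.P.MP_323ce2_nt.QF.F13
import Pool.Agent.P.MP_323ce2_nt.QF.Gcd
import Pool.Agent.P.MP_323ce2_nt.QF.Den

/-! The principal case, and the flip with a hypothesis on a bounded range of lengths. -/

namespace Pool.Agent.P.MP_323ce2_nt.QF

open Pool.Agent.P.MP_26a8c3_nt Pool.Agent.P.MP_26a8c3_nt.QO Pool.Agent.P.MP_26a8c3_nt.QA
open Pool.Agent.P.MP_323ce2_nt.QZ Complex Finset
open scoped Classical ComplexConjugate

lemma norm_Wt_le {X : ℝ} (hX : 0 < X) (t : ℝ) : ‖Wt X t 1‖ ≤ 4 * X := by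
  have h := norm_Wt X t 1 0
  simp only [ofReal_one, ofReal_zero, zero_mul, add_zero, one_mul, one_pow, zero_add] at h
  rw [h, Real.exp_add, Real.exp_log hX]
  have h1 : √Real.pi ≤ 2 := Real.sqrt_le_iff.2 ⟨by norm_num, by linarith [Real.pi_lt_four]⟩
  have h2 : Real.exp ((1 - t ^ 2) / 4) ≤ 2 := by
    rw [← Real.le_log_iff_exp_le two_pos]
    nlinarith [Real.log_two_gt_d9, sq_nonneg t]
  calc _ ≤ 2 * (X * 2) := by gcongr
    _ = _ := by ring

lemma interp {z K y η : ℝ} (hK : 0 ≤ K) (hy : 0 < y) (h0 : 0 ≤ η) (h1 : η ≤ 1) (k0 : z ≤ K)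
    (k1 : z ≤ K / y ^ 1) : z ≤ K * y ^ (-η) := by
  rcases le_total y 1 with h | h
  · exact k0.trans (le_mul_of_one_le_right hK (Real.one_le_rpow_of_pos_of_le_one_of_nonpos hy h
      (by linarith)))
  · rw [pow_one, div_eq_mul_inv, ← Real.rpow_neg_one] at k1
    exact k1.trans (mul_le_mul_of_nonneg_left (Real.rpow_le_rpow_of_exponent_le h (by linarith)) hK)

/-- the dual sum in the principal case -/
lemma Ds_gcd {J : ℝ → ℝ → ℂ} {b : O → ℂ} {r : O} {B K V t β ε : ℝ} (hB : 0 ≤ B) (hK : 0 ≤ K)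
    (hβ : 0 < β) (hb : ∀ h, ‖b h‖ ≤ B * N (gcd r h))
    (hJ : ∀ y, 0 < y → ‖J t y‖ ≤ K * y ^ (-(1 / 2 + ε)))
    (hV : ∀ T : Finset O, 0 ∉ T → ∑ h ∈ T, (N (gcd r h) : ℝ) * (N h : ℝ) ^ (-(1 + ε)) ≤ V) :
    ‖Ds J b t β‖ ≤ B * K * β ^ (-(1 / 2 + ε)) * V := by
  set f : O → ℝ := fun h => if h = 0 then 0 else (N (gcd r h) : ℝ) * (N h : ℝ) ^ (-(1 + ε)) with hf
  have f0 : ∀ h, 0 ≤ f h := fun h => by simp only [hf]; split_ifs <;> positivity
  have f1 : ∀ T : Finset O, ∑ h ∈ T, f h ≤ V := fun T => by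
    rw [← sum_erase T (a := 0) (by simp [hf])]
    refine le_trans (le_of_eq (sum_congr rfl fun h hh => ?_)) (hV _ (notMem_erase 0 T))
    simp only [hf, if_neg (ne_of_mem_erase hh)]
  have f2 := summable_of_sum_le f0 f1
  refine (tsum_of_norm_bounded (f2.hasSum.mul_left (B * K * β ^ (-(1 / 2 + ε)))) fun h => ?_).trans
    (mul_le_mul_of_nonneg_left (f2.tsum_le_of_sum_le f1) (by positivity))
  rcases eq_or_ne h 0 with rfl | h0
  · simp [hf, ab_zero]
  have h1 := N_pos_real h0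
  have h2 := inv_ab_le h
  have h3 := ab_nonneg h
  rw [nr_eq h0] at h2 ⊢
  simp only [hf, if_neg h0]
  rw [norm_mul, norm_mul, norm_inv_ab, show -(1 + ε) = -(1 / 2) + -(1 / 2 + ε) by ring,
    Real.rpow_add h1]
  calc _ ≤ B * N (gcd r h) * (N h : ℝ) ^ (-(1 / 2) : ℝ) * (K * (N h * β) ^ (-(1 / 2 + ε))) := by
        gcongr
        exacts [hb h, hJ _ (mul_pos h1 hβ)]
    _ = _ := by rw [Real.mul_rpow h1.le hβ.le]; ring

theorem pF0 (hA : Alg) (hc : S_Core) : S_F0 := by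
  obtain ⟨J, h1, h2, -⟩ := hc
  intro Q hQ h36
  have hq : 2 * Q ≠ 0 := mul_ne_zero two_ne_zero hQ
  have h3 : (3 : O) ∣ 2 * Q := (Dvd.dvd.trans ⟨12, by norm_num⟩ h36).mul_left 2
  choose! ρ hρ using fun m => pDec hA Q m hQ h36
  refine ⟨fun m => a0 * ((sm (2 * Q * ρ m) (uL (cop (2 * Q * ρ m)))).re / N (2 * Q * ρ m)),
    fun ε hε => ?_⟩
  set η := min (ε / 2) (1 / 2) with hη
  have η0 : 0 < η := lt_min (half_pos hε) one_half_pos
  have η1 : η ≤ ε / 2 := min_le_left _ _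
  have η2 : η ≤ 1 / 2 := min_le_right _ _
  obtain ⟨C, k, hC, hJ⟩ := h2 1
  obtain ⟨C₁, hC₁, hG⟩ := pGcd η η0
  obtain ⟨C₂, hC₂, hD⟩ := pDen (2 * Q) ε hq h3 hε
  have hq1 := one_le_N hq
  have hq2 := N_pos_real hq
  have hK := one_le_KO
  have ha := QB.one_le_a0
  set C₃ := N (2 * Q) * C * (N (2 * Q) : ℝ) ^ η * C₁ with hC₃
  have hC₃0 : 0 < C₃ := by positivity
  have hE := Real.exp_pos 1
  refine ⟨C₂ + C₃ + (KO * Real.exp 1 + 16), k, by positivity, fun m R hm hR => ?_⟩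
  obtain ⟨hF, hr, hco⟩ := hρ m hm
  have hF0 := hF _ (isNu_cop Q)
  obtain ⟨x, hx, x1, x2⟩ := hD (ρ m) hF0.sq hF0.cop
  have hN := N_pos_real hF0.ne
  have hr1 := one_le_N hF0.sq.1.ne_zero
  have hR1 := hR.one_le
  have hrR := hr R hR
  have x0 : 0 < x := (mul_pos_iff_of_pos_left hC₂).1 ((Real.rpow_pos_of_pos (by linarith) _).trans_le x1)
  have e : (sm (2 * Q * ρ m) (uL (cop (2 * Q * ρ m)))).re / N (2 * Q * ρ m) = x := by
    rw [hx, ← ofReal_natCast, ← ofReal_mul, ofReal_re, mul_div_cancel_right₀ _ hN.ne']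
  simp only [e]
  have d4 : a0 * x ≤ 4 := by nlinarith [a0_le]
  refine ⟨?_, d4, fun ν X t hν hE hX => ?_⟩
  · calc R ^ (-ε) ≤ (N (ρ m) : ℝ) ^ (-ε) :=
          Real.rpow_le_rpow_of_nonpos (by linarith) hrR (by linarith)
      _ ≤ C₂ * x := x1
      _ ≤ _ := by
          gcongr
          · have : 0 < KO * Real.exp 1 := by positivity
            linarith
          · exact le_mul_of_one_le_left x0.le ha
  have t1 : 1 ≤ (1 + |t|) ^ k := one_le_pow₀ (by linarith [abs_nonneg t])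
  have r1 : 1 ≤ R ^ ε := Real.one_le_rpow hR1 hε.le
  rcases le_total X 1 with hX1 | hX1
  · have k1 := QZ.norm_Wsum_le (mul1_ph hν m).uL hX t (k := 2) (by norm_num)
    have k2 := norm_Wt_le hX t
    have k3 : X ^ (2 : ℝ) ≤ 1 := Real.rpow_le_one hX.le hX1 two_pos.le
    rw [show (2 : ℝ) ^ 2 / 4 = 1 by norm_num] at k1
    refine (norm_sub_le _ _).trans ?_
    rw [norm_mul, norm_real, Real.norm_of_nonneg (by positivity)]
    calc _ ≤ KO * (Real.exp 1 * 1) + 4 * (4 * 1) := by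
          gcongr
          · exact k1.trans (by gcongr)
          · exact k2.trans (by gcongr)
      _ ≤ (C₂ + C₃ + (KO * Real.exp 1 + 16)) * 1 * 1 := by linarith
      _ ≤ _ := by gcongr
  have hF := hF ν hν
  have hP : ∀ u, Primary u → IsCoprime u (2 * Q * ρ m) → ph ν m u = 1 :=
    fun u a b => hE u a ((hco u).1 b)
  have e2 : uL (ph ν m) = uL (cop (2 * Q * ρ m)) := by
    funext y
    unfold uL
    split_ifs with hy
    · by_cases h : IsCoprime y (2 * Q * ρ m)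
      · rw [hP y hy h, cop_of h]
      · rw [hF.zero y hy h, cop_of_not h]
    · rfl
  have kf := hF.flip h1 hX t
  have e3 : ((a0 / N (2 * Q * ρ m) : ℝ) : ℂ) * QO.ft (uL (ph ν m)) (2 * Q * ρ m) 0 = (a0 * x : ℝ) := by
    rw [ft_zero, e2, hx, ← ofReal_natCast, ← ofReal_mul, ← ofReal_mul]
    congr 1
    field_simp
  rw [e3] at kf
  have hβ : 0 < a0 ^ 2 * X / N (2 * Q * ρ m) := by positivity
  have k2 := Ds_gcd (J := J) (t := t) hq2.le (K := C * (1 + |t|) ^ k) (by positivity) hβ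
    ((pMul _ _ _ hF).2.2 hP) (fun y hy => interp (by positivity) hy (by linarith) (by linarith)
      (hJ t y hy).1 (hJ t y hy).2) fun T hT => hG (ρ m) T hF.sq hT
  have k3 : (a0 ^ 2 * X / N (2 * Q * ρ m)) ^ (-(1 / 2 + η)) ≤
      ab (2 * Q) * ab (ρ m) / √X * ((N (2 * Q) : ℝ) ^ η * R ^ η) := by
    have b1 : X / N (2 * Q * ρ m) ≤ a0 ^ 2 * X / N (2 * Q * ρ m) := by
      gcongr; exact le_mul_of_one_le_left hX.le (one_le_pow₀ ha)
    refine (Real.rpow_le_rpow_of_nonpos (by positivity) b1 (by linarith)).trans ?_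
    rw [Real.rpow_neg (by positivity), ← Real.inv_rpow (by positivity), inv_div,
      Real.rpow_add (by positivity), ← Real.sqrt_eq_rpow, Real.sqrt_div hN.le, ← ab_eq, ab_mul,
      ← Real.mul_rpow hq2.le (by linarith)]
    have := ab_nonneg (2 * Q)
    have := ab_nonneg (ρ m)
    gcongr
    rw [map_mul, Nat.cast_mul]
    exact (div_le_self (by positivity) hX1).trans (by gcongr)
  have a1 := ab_pos hq
  have a2 := ab_pos hF.sq.1.ne_zero
  have a3 := Real.sqrt_pos.2 hX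
  have r2 : R ^ η * R ^ η ≤ R ^ ε := by
    rw [← Real.rpow_add (by linarith)]; exact Real.rpow_le_rpow_of_exponent_le hR1 (by linarith)
  calc _ = _ := kf
    _ ≤ √X / (ab (2 * Q) * ab (ρ m)) * (N (2 * Q) * (C * (1 + |t|) ^ k) *
        (ab (2 * Q) * ab (ρ m) / √X * ((N (2 * Q) : ℝ) ^ η * R ^ η)) * (C₁ * R ^ η)) := by
        refine mul_le_mul_of_nonneg_left (k2.trans ?_) (by positivity)
        gcongr
    _ = C₃ * (1 + |t|) ^ k * (R ^ η * R ^ η) := by rw [hC₃]; field_simp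
    _ ≤ _ := by
        gcongr
        have : 0 < KO * Real.exp 1 := by positivity
        linarith

lemma Wsum_le_lin {u : O → ℂ} (hu : ∀ c, ‖u c‖ ≤ 1) {X : ℝ} (hX : 0 < X) (t : ℝ) :
    ‖Wsum u X t‖ ≤ 208 * X := by
  have hs := QB.summable_W1 hu hX t
  have h := sum_W_le nr_pos (C := 16) (fun Y s hY hs => by
    rcases s.eq_empty_or_nonempty with rfl | ⟨c, hc⟩
    · simpa using hY.le
    have h1 := (one_le_nr c).trans (hs c hc)
    have h2 : s ⊆ ball Y := fun n hn => mem_ball.2 ((QB.N_le_nr n).trans (hs n hn))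
    have h3 : (s.card : ℝ) ≤ (ball Y).card := by exact_mod_cast card_le_card h2
    linarith [card_ball_le hY.le]) hX t
  refine (norm_tsum_le_tsum_norm hs).trans (hs.tsum_le_of_sum_le fun s => ?_)
  refine le_trans (sum_le_sum fun c _ => ?_) ((h s).trans_eq (by norm_num))
  rw [norm_mul]
  exact mul_le_of_le_one_left (norm_nonneg _) (hu c)

theorem pF2 (h3 : S_F3) : S_F2 := by
  intro Q hQ h36 ε A K hε
  set δ := min (ε / 2) 1 with hδ
  have δ0 : 0 < δ := lt_min (half_pos hε) one_pos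
  have δ1 : δ ≤ ε / 2 := min_le_left _ _
  have δ2 : δ ≤ 1 := min_le_right _ _
  obtain ⟨C, k, hC, h⟩ := h3 Q hQ h36 δ (A + 1 + K) δ0
  set E := (KO * Real.exp (((A : ℝ) + 2) ^ 2 / 4)) ^ 2 + 208 ^ 2 + 1 with hE
  have hE1 : 1 ≤ E := by rw [hE]; nlinarith [sq_nonneg (KO * Real.exp (((A : ℝ) + 2) ^ 2 / 4))]
  refine ⟨C * E, k, by positivity, fun ι s ν m c R X D t B hR hX hD hB hs hy => ?_⟩
  have hS : 0 ≤ ∑ i ∈ s, c i := sum_nonneg fun i hi => (hs i hi).2.2.2.2
  have hD0 : 0 < D := by linarith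
  have hR0 : 0 < R := by linarith
  have hX0 : 0 < X := by linarith
  have hQ1 := one_le_N hQ
  have d1 : 1 ≤ D ^ δ := Real.one_le_rpow hD δ0.le
  have triv : ∀ Y v z : ℝ, (∀ i ∈ s, ‖Lm (ν i) (m i) Y v‖ ^ 2 ≤ z) →
      ∑ i ∈ s, c i * ‖Lm (ν i) (m i) Y v‖ ^ 2 ≤ z * ∑ i ∈ s, c i := fun Y v z hz => by
    rw [mul_comm, sum_mul]
    exact sum_le_sum fun i hi => mul_le_mul_of_nonneg_left (hz i hi) (hs i hi).2.2.2.2
  refine (h ι s ν m c R X t (E * D ^ δ * (B + R / D ^ A * ∑ i ∈ s, c i)) hR hX (by positivity) hs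
    fun Y v hY => ?_).trans ?_
  · have v1 : 1 ≤ 1 + |v| := by linarith [abs_nonneg v]
    have y0 : 0 ≤ Y * X / R := by positivity
    have y1 : 1 ≤ 1 + Y * X / R := by linarith
    have p1 : 1 ≤ (1 + |v|) ^ (A + 1 + K) := one_le_pow₀ v1
    have p2 : 1 ≤ (1 + Y * X / R) ^ (A + 1 + K) := one_le_pow₀ y1
    have b1 : R / D ^ A * ∑ i ∈ s, c i ≤ B + R / D ^ A * ∑ i ∈ s, c i := by linarith
    have b0 : 0 ≤ R / D ^ A * ∑ i ∈ s, c i := by positivity
    rcases lt_or_ge Y D⁻¹ with h1 | h1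
    · have y2 : Y ≤ 1 := h1.le.trans (inv_le_one_of_one_le₀ hD)
      refine (triv Y v (E * (R / D ^ A) * Y ^ (1 + δ)) fun i hi => ?_).trans ?_
      · have k1 := QZ.norm_Wsum_le (mul1_ph (hs i hi).1 (m i)).uL hY v (k := A + 2)
          (by have := Nat.cast_nonneg (α := ℝ) A; linarith)
        refine (pow_le_pow_left₀ (norm_nonneg _) k1 2).trans ?_
        have k2 : (Y ^ ((A : ℝ) + 2)) ^ 2 ≤ R / D ^ A * Y ^ (1 + δ) := by
          rw [sq, Real.rpow_add hY, Real.rpow_natCast]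
          have a1 : Y ^ A ≤ R / D ^ A := by
            rw [div_eq_mul_inv, ← inv_pow]
            exact (pow_le_pow_left₀ hY.le h1.le A).trans (le_mul_of_one_le_left (by positivity) hR)
          have a2 : Y ^ (2 : ℝ) ≤ Y ^ (1 + δ) :=
            Real.rpow_le_rpow_of_exponent_ge hY y2 (by linarith)
          have a3 : Y ^ A * Y ^ (2 : ℝ) ≤ 1 :=
            mul_le_one₀ (pow_le_one₀ hY.le y2) (by positivity) (Real.rpow_le_one hY.le y2 two_pos.le)
          calc _ ≤ R / D ^ A * Y ^ (1 + δ) * 1 := by gcongr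
            _ = _ := mul_one _
        rw [← mul_assoc, mul_pow, mul_assoc E]
        gcongr
        rw [hE]; linarith
      · calc _ = E * 1 * (R / D ^ A * ∑ i ∈ s, c i) * Y ^ (1 + δ) * 1 * 1 := by ring
          _ ≤ _ := by gcongr
    rcases le_or_gt Y (D * (N Q * R / X)) with h2 | h2
    · refine (hy Y v h1 h2).trans ?_
      have a1 : Y ≤ D ^ δ * Y ^ (1 + δ) := by
        rw [Real.rpow_add hY, Real.rpow_one, mul_left_comm, ← Real.mul_rpow hD0.le hY.le]
        refine le_mul_of_one_le_right hY.le (Real.one_le_rpow ?_ δ0.le)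
        rwa [inv_le_iff_one_le_mul₀' hD0] at h1
      calc _ ≤ (B + R / D ^ A * ∑ i ∈ s, c i) * (1 + |v|) ^ (A + 1 + K) * (D ^ δ * Y ^ (1 + δ)) := by
            gcongr
            · linarith
            · omega
        _ = 1 * D ^ δ * (B + R / D ^ A * ∑ i ∈ s, c i) * Y ^ (1 + δ) * 1 *
            (1 + |v|) ^ (A + 1 + K) := by ring
        _ ≤ _ := by gcongr
    · have a1 : D ≤ 1 + Y * X / R := by
        have : D * (1 * R / X) ≤ Y := le_trans (by gcongr) h2.le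
        rw [one_mul, ← mul_div_assoc, div_le_iff₀ hX0, ← le_div_iff₀ hR0] at this
        linarith
      have a2 : Y ^ 2 ≤ R * (1 + Y * X / R) * Y ^ (1 + δ) := by
        have c1 : 1 ≤ R * (1 + Y * X / R) := one_le_mul_of_one_le_of_one_le hR y1
        have c2 : Y ≤ R * (1 + Y * X / R) := by
          rw [mul_add, mul_div_cancel₀ _ hR0.ne']; nlinarith
        have c3 : 0 < Y ^ (1 + δ) := by positivity
        rcases le_total Y 1 with c | c
        · have : Y ^ (2 : ℝ) ≤ Y ^ (1 + δ) := Real.rpow_le_rpow_of_exponent_ge hY c (by linarith)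
          rw [Real.rpow_two] at this
          nlinarith
        · have : Y ^ (1 : ℝ) ≤ Y ^ (1 + δ) := Real.rpow_le_rpow_of_exponent_le c (by linarith)
          rw [Real.rpow_one] at this
          nlinarith
      have a3 : R * (1 + Y * X / R) ≤ R / D ^ A * (1 + Y * X / R) ^ (A + 1 + K) := by
        rw [div_mul_eq_mul_div R, mul_div_assoc R]
        refine mul_le_mul_of_nonneg_left ((le_div_iff₀ (by positivity)).2 ?_) hR0.le
        calc _ ≤ (1 + Y * X / R) * (1 + Y * X / R) ^ A * (1 + Y * X / R) ^ K :=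
              le_trans (by gcongr) (le_mul_of_one_le_right (by positivity) (one_le_pow₀ y1))
          _ = _ := by ring
      refine (triv Y v (E * (R / D ^ A * (1 + Y * X / R) ^ (A + 1 + K) * Y ^ (1 + δ)))
        fun i hi => ?_).trans ?_
      · refine (pow_le_pow_left₀ (norm_nonneg _)
          (Wsum_le_lin (mul1_ph (hs i hi).1 (m i)).uL hY v) 2).trans ?_
        rw [mul_pow]
        gcongr
        · rw [hE]; nlinarith [sq_nonneg (KO * Real.exp (((A : ℝ) + 2) ^ 2 / 4))]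
        · exact a2.trans (by gcongr)
      · calc _ = E * 1 * (R / D ^ A * ∑ i ∈ s, c i) * Y ^ (1 + δ) *
              (1 + Y * X / R) ^ (A + 1 + K) * 1 := by ring
          _ ≤ _ := by gcongr
  · have a1 : R ^ (2 * δ) * D ^ δ ≤ (R * D) ^ ε := by
      rw [Real.mul_rpow hR0.le hD0.le]
      gcongr <;> linarith
    calc _ = C * E * (1 + |t|) ^ k * (R ^ (2 * δ) * D ^ δ) * X * (B + R / D ^ A * ∑ i ∈ s, c i) := by
          ring
      _ ≤ _ := by gcongr

end Pool.Agent.P.MP_323ce2_nt.QF
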