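import Pool.Agent.P.MP_323ce2_nt.QF.Dual
import Pool.Agent.P.MP_323ce2_nt.QF.Dec

/-! Decay of long sums and the flip in mean square. -/

namespace Pool.Agent.P.MP_323ce2_nt.QF

open Pool.Agent.P.MP_26a8c3_nt Pool.Agent.P.MP_26a8c3_nt.QO Pool.Agent.P.MP_26a8c3_nt.QA
open Pool.Agent.P.MP_323ce2_nt.QZ Complex Finset
open scoped Classical ComplexConjugate

lemma not_exc {Q m r : O} {ν : O → ℂ} (h : ¬ Exc Q ν m)
    (hc : ∀ n, IsCoprime n (2 * Q * r) ↔ IsCoprime n (Q * m)) :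
    ∃ u, Primary u ∧ IsCoprime u (2 * Q * r) ∧ ph ν m u ≠ 1 := by
  by_contra e
  exact h fun n h1 h2 => by_contra fun h3 => e ⟨n, h1, (hc n).2 h2, h3⟩

lemma norm_conj_le {φ : O → ℂ} (h : Mul1 φ) (n : O) : ‖conj (uL φ n)‖ ≤ 1 := by
  rw [norm_conj]; exact h.uL n

lemma conj_Wsum (u : O → ℂ) (X t : ℝ) : Wsum (fun n => conj (u n)) X t = conj (Wsum u X (-t)) := by
  rw [Wsum, Wsum, conj_tsum]
  exact tsum_congr fun n => by rw [map_mul, conj_W, neg_neg]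

lemma beta_le {q r : O} {R X : ℝ} (hq : q ≠ 0) (hr : r ≠ 0) (hR : (N r : ℝ) ≤ R) (hX : 0 < X) :
    X / (N q * R) ≤ a0 ^ 2 * X / N (q * r) := by
  have := N_pos_real hq
  have := N_pos_real hr
  rw [map_mul, Nat.cast_mul]
  gcongr
  exact le_mul_of_one_le_left hX.le (one_le_pow₀ QB.one_le_a0)

theorem pF1 (hA : Alg) (hc : S_Core) : S_F1 := by
  obtain ⟨J, h1, h2, -⟩ := hc
  intro Q hQ h36 A
  have hq : 2 * Q ≠ 0 := mul_ne_zero two_ne_zero hQ
  obtain ⟨C, k, hC, hJ⟩ := h2 (A + 1)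
  obtain ⟨V, hV, hW⟩ := pWt (2 * Q) 1 hq one_pos
  have hK := one_le_KO
  have hq1 := ab_pos hq
  have hq2 := N_pos_real hq
  refine ⟨ab (2 * Q) * C * N (2 * Q) ^ (A + 1) * KO * V, k, by positivity,
    fun ν m R X t hν hm hR hE hX => ?_⟩
  obtain ⟨r, hF, hr, hco⟩ := pDec hA Q m hQ h36 hm
  have hF := hF ν hν
  have hR1 := hR.one_le
  have hX0 : 0 < X := by linarith
  have hβ : 0 < X / (N (2 * Q) * R) := by positivity
  have k1 := hF.main h1 h2 (not_exc hE hco) hX0 (t := t)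
    (T := 1 * (C * (1 + |t|) ^ k) / (X / (N (2 * Q) * R)) ^ (A + 1) * KO) (V := V * R)
    (fun β' h => ?_) fun S hS => (hW r S hF.sq hS).trans ?_
  · refine k1.trans ?_
    have : √X ≤ X := Real.sqrt_le_self_iff.2 (Or.inr hX)
    calc _ ≤ X * ab (2 * Q) * (1 * (C * (1 + |t|) ^ k) / (X / (N (2 * Q) * R)) ^ (A + 1) * KO) *
          (V * R) := by gcongr
      _ = _ := by simp only [div_pow, mul_pow]; field_simp; ring
  · have h3 := (beta_le hq hF.sq.1.ne_zero (hr R hR) hX0).trans h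
    refine (Ds_le (norm_conj_le hF.mul) (hβ.trans_le h3) (by positivity)
      fun y hy => (hJ t y hy).2).trans ?_
    gcongr
  · rw [Real.rpow_one]
    exact mul_le_mul_of_nonneg_left (hr R hR) hV.le

theorem pF3 (hA : Alg) (hc : S_Core) : S_F3 := by
  obtain ⟨J, h1, h2, h3⟩ := hc
  intro Q hQ h36 δ A hδ
  have hq : 2 * Q ≠ 0 := mul_ne_zero two_ne_zero hQ
  obtain ⟨C, k, hC, hJ⟩ := h3 δ A hδ
  obtain ⟨V, hV, hW⟩ := pWt (2 * Q) (δ / 2) hq (half_pos hδ)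
  have hq1 := one_le_N hq
  have hq2 := N_pos_real hq
  refine ⟨N (2 * Q) * V ^ 2 * C * (N (2 * Q) : ℝ) ^ δ * N (2 * Q) ^ A, k, by positivity,
    fun ι s ν m c R X t b hR hX hb hs h => ?_⟩
  have hX0 : 0 < X := by linarith
  have hR0 : 0 < R := by linarith
  have hβ : 0 < X / (N (2 * Q) * R) := by positivity
  obtain ⟨T, hT, hT2⟩ := hJ ι s (fun i n => conj (uL (ph (ν i) (m i)) n)) c _ t
    (b * N (2 * Q) ^ A) hβ (by positivity)
    (fun i hi => ⟨(hs i hi).2.2.2.2, by simp [uL_zero], norm_conj_le (mul1_ph (hs i hi).1 _)⟩)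
    fun Y v hY => by
      simp only [conj_Wsum, norm_conj]
      refine (h Y (-v) hY).trans ?_
      have e : 1 + Y * X / R ≤ N (2 * Q) * (1 + X / (N (2 * Q) * R) * Y) := by
        rw [mul_add, show N (2 * Q) * (X / (N (2 * Q) * R) * Y) = Y * X / R by field_simp]
        linarith
      rw [abs_neg]
      calc _ ≤ b * Y ^ (1 + δ) * (N (2 * Q) * (1 + X / (N (2 * Q) * R) * Y)) ^ A * (1 + |v|) ^ A := by
            gcongr
        _ = _ := by rw [mul_pow]; ring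
  have k1 : ∀ i ∈ s, c i * ‖Lm (ν i) (m i) X t‖ ^ 2 ≤
      X * N (2 * Q) * (V ^ 2 * R ^ δ) * (c i * T i ^ 2) := fun i hi => by
    obtain ⟨hν, hm, hr0, hE, hc⟩ := hs i hi
    obtain ⟨r, hF, hr, hco⟩ := pDec hA Q (m i) hQ h36 hm
    have hF := hF _ hν
    have k2 := hF.main h1 h2 (not_exc hE hco) hX0 (t := t) (T := T i) (V := V * R ^ (δ / 2))
      (fun β' e => hT i hi β' ((beta_le hq hF.sq.1.ne_zero (hr R hr0) hX0).trans e))
      fun S hS => (hW r S hF.sq hS).trans (by have := hr R hr0; gcongr)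
    have k3 := pow_le_pow_left₀ (norm_nonneg _) k2 2
    rw [mul_pow, mul_pow, mul_pow, mul_pow, Real.sq_sqrt hX0.le, ab_sq, ← Real.rpow_natCast (R ^ _),
      ← Real.rpow_mul hR0.le, show δ / 2 * (2 : ℕ) = δ by push_cast; ring] at k3
    exact (mul_le_mul_of_nonneg_left k3 hc).trans_eq (by ring)
  refine (sum_le_sum k1).trans ?_
  rw [← mul_sum]
  have k4 : (X / (N (2 * Q) * R)) ^ (-δ) ≤ (N (2 * Q) : ℝ) ^ δ * R ^ δ := by
    rw [Real.rpow_neg hβ.le, ← Real.inv_rpow hβ.le, inv_div, ← Real.mul_rpow hq2.le hR0.le]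
    exact Real.rpow_le_rpow (by positivity) (div_le_self (by positivity) hX) hδ.le
  calc _ ≤ X * N (2 * Q) * (V ^ 2 * R ^ δ) *
        (C * (1 + |t|) ^ k * ((N (2 * Q) : ℝ) ^ δ * R ^ δ) * (b * N (2 * Q) ^ A)) := by
        refine mul_le_mul_of_nonneg_left (hT2.trans ?_) (by positivity)
        gcongr
    _ = _ := by rw [two_mul δ, Real.rpow_add hR0]; ring

end Pool.Agent.P.MP_323ce2_nt.QF
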