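import Pool.Agent.P.MP_323ce2_nt.QF.Core

/-! Bounds for the dual test function and the return to the class of `W`-weighted sums. -/

namespace Pool.Agent.P.MP_323ce2_nt.QF

open Complex MeasureTheory Set Filter Topology
open scoped Real
open Pool.Agent.P.MP_26a8c3_nt.QA

theorem norm_ratio_le (k : ℕ) (u : ℝ) : ‖Complex.Gamma (((k + 1 / 2 : ℝ) : ℂ) + u * I) *
    (Complex.Gamma (1 - (((k + 1 / 2 : ℝ) : ℂ) + u * I)))⁻¹‖ ≤ ((k + 1) * (1 + |u|)) ^ (2 * k) := by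
  induction k with
  | zero =>
    rw [mul_zero, pow_zero]
    refine norm_Gamma_conj ?_
    simp only [map_add, conj_ofReal, map_mul, conj_I]; push_cast; ring
  | succ k ih =>
    set s : ℂ := ((k + 1 / 2 : ℝ) : ℂ) + u * I with hs
    have h0 : s ≠ 0 := fun h => by
      have := congrArg re h
      simp [hs] at this
      linarith [Nat.cast_nonneg (α := ℝ) k]
    have e1 : ((((k + 1 : ℕ) : ℝ) + 1 / 2 : ℝ) : ℂ) + u * I = s + 1 := by rw [hs]; push_cast; ring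
    have h1 : ‖s‖ ≤ (k + 1) * (1 + |u|) := by
      refine (Complex.norm_le_abs_re_add_abs_im s).trans ?_
      have : (0 : ℝ) ≤ k := Nat.cast_nonneg k
      have h2 : |s.re| = k + 1 / 2 := by simp [hs]; linarith
      have h3 : |s.im| = |u| := by simp [hs]
      rw [h2, h3]; nlinarith [abs_nonneg u]
    rw [e1, Complex.Gamma_add_one s h0, show 1 - (s + 1) = -s by ring,
      Complex.one_div_Gamma_eq_self_mul_one_div_Gamma_add_one (-s), show -s + 1 = 1 - s by ring,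
      show s * Complex.Gamma s * (-s * (Complex.Gamma (1 - s))⁻¹) =
        -(s * s * (Complex.Gamma s * (Complex.Gamma (1 - s))⁻¹)) by ring, norm_neg, norm_mul,
      norm_mul]
    have h4 : ((k : ℝ) + 1) * (1 + |u|) ≤ ((k + 1 : ℕ) + 1) * (1 + |u|) := by
      push_cast; gcongr; linarith
    calc _ ≤ (((k + 1 : ℕ) + 1) * (1 + |u|)) * (((k + 1 : ℕ) + 1) * (1 + |u|)) *
          (((k + 1 : ℕ) + 1) * (1 + |u|)) ^ (2 * k) := by
          gcongr
          exacts [h1.trans h4, h1.trans h4, ih.trans (by gcongr)]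
      _ = _ := by ring

theorem poly_gauss (n : ℕ) (t u : ℝ) : (1 + |u|) ^ n * Real.exp (-(u - t) ^ 2 / 4) ≤
    Real.exp (2 * n ^ 2) * (1 + |t|) ^ n * Real.exp (-(1 / 8) * (u - t) ^ 2) := by
  have h1 : 1 + |u| ≤ (1 + |t|) * Real.exp |u - t| := by
    have h2 := Real.add_one_le_exp |u - t|
    have h3 : |u| ≤ |u - t| + |t| := by simpa using abs_add_le (u - t) t
    have h4 := abs_nonneg t
    have h5 := abs_nonneg (u - t)
    calc _ ≤ (1 + |t|) * (|u - t| + 1) := by nlinarith [mul_nonneg h4 h5]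
      _ ≤ _ := by gcongr
  have h2 : Real.exp |u - t| ^ n * Real.exp (-(u - t) ^ 2 / 4) ≤
      Real.exp (2 * n ^ 2) * Real.exp (-(1 / 8) * (u - t) ^ 2) := by
    rw [← Real.exp_nat_mul, ← Real.exp_add, ← Real.exp_add, Real.exp_le_exp, ← sq_abs (u - t)]
    nlinarith [sq_nonneg (|u - t| - 4 * n)]
  calc _ ≤ ((1 + |t|) * Real.exp |u - t|) ^ n * Real.exp (-(u - t) ^ 2 / 4) := by gcongr
    _ = (1 + |t|) ^ n * (Real.exp |u - t| ^ n * Real.exp (-(u - t) ^ 2 / 4)) := by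
        rw [mul_pow, mul_assoc]
    _ ≤ (1 + |t|) ^ n * (Real.exp (2 * n ^ 2) * Real.exp (-(1 / 8) * (u - t) ^ 2)) := by gcongr
    _ = _ := by ring

theorem exists_Kw_le (k n : ℕ) : ∃ C : ℝ, 0 < C ∧ ∀ t u : ℝ,
    ‖Kw t (((k + 1 / 2 : ℝ) : ℂ) + u * I)‖ * (1 + |u|) ^ n ≤
      C * (1 + |t|) ^ (2 * k + n) * Real.exp (-(1 / 8) * (u - t) ^ 2) := by
  refine ⟨√π * Real.exp ((1 - (k + 1 / 2)) ^ 2 / 4) * (k + 1) ^ (2 * k) *
    Real.exp (2 * (2 * k + n : ℕ) ^ 2), by positivity, fun t u => ?_⟩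
  have h1 := norm_ratio_le k u
  have h2 := poly_gauss (2 * k + n) t u
  rw [Kw, norm_mul, norm_Wt_one, sub_div, sub_eq_add_neg (_ / 4), Real.exp_add, ← neg_div]
  calc _ ≤ √π * (Real.exp ((1 - (k + 1 / 2)) ^ 2 / 4) * Real.exp (-(u - t) ^ 2 / 4)) *
        ((k + 1) * (1 + |u|)) ^ (2 * k) * (1 + |u|) ^ n := by gcongr
    _ = √π * Real.exp ((1 - (k + 1 / 2)) ^ 2 / 4) * (k + 1) ^ (2 * k) *
        ((1 + |u|) ^ (2 * k + n) * Real.exp (-(u - t) ^ 2 / 4)) := by rw [mul_pow, pow_add]; ring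
    _ ≤ _ := (mul_le_mul_of_nonneg_left h2 (by positivity)).trans_eq (by ring)

theorem differentiableAt_Kw (t : ℝ) {s : ℂ} (hs : 0 < s.re) : DifferentiableAt ℂ (Kw t) s := by
  have h1 : DifferentiableAt ℂ Complex.Gamma s := Complex.differentiableAt_Gamma _ fun m hm => by
    have := congrArg Complex.re hm
    simp at this
    linarith [Nat.cast_nonneg (α := ℝ) m]
  exact (((differentiable_Wt 1 t).comp (by fun_prop : Differentiable ℂ fun s : ℂ => 1 - s)) s).mul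
    (h1.mul ((Complex.differentiable_one_div_Gamma.comp
      (by fun_prop : Differentiable ℂ fun s : ℂ => 1 - s)) s))

theorem continuous_Kw (t : ℝ) {σ : ℝ} (hσ : 0 < σ) : Continuous fun u : ℝ => Kw t (σ + u * I) :=
  continuous_iff_continuousAt.2 fun u => (differentiableAt_Kw t (s := σ + u * I)
    (by simpa using hσ)).continuousAt.comp (f := fun u : ℝ => (σ : ℂ) + u * I) (by fun_prop)

theorem exists_Kw_strip (t : ℝ) {σ1 σ2 : ℝ} (h1 : 0 < σ1) : ∃ C : ℝ, 0 < C ∧ ∀ σ u : ℝ, σ1 ≤ σ →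
    σ ≤ σ2 → ‖Kw t (σ + u * I)‖ ≤ C * Real.exp (-(1 / 8) * u ^ 2) := by
  obtain ⟨B, hB⟩ := (isCompact_Icc (a := σ1) (b := σ2)).exists_bound_of_continuousOn
    (f := Real.Gamma) fun x hx => (Real.differentiableAt_Gamma fun m => by
      have : (0 : ℝ) ≤ m := Nat.cast_nonneg m
      linarith [hx.1]).continuousAt.continuousWithinAt
  refine ⟨√π * (|B| + 1) * (|B| + 1) * Real.exp ((1 + σ2) ^ 2 + 2 * (|t| / 2 + π) ^ 2),
    by positivity, fun σ u k1 k2 => ?_⟩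
  have k0 : 0 < σ := h1.trans_le k1
  have k3 : ‖Complex.Gamma (σ + u * I)‖ ≤ |B| + 1 := by
    refine (norm_Gamma_le (by simpa using k0)).trans ?_
    have := hB σ ⟨k1, k2⟩
    simp only [add_re, ofReal_re, mul_re, I_re, mul_zero, ofReal_im, I_im, mul_one, sub_self,
      add_zero]
    linarith [le_abs_self B, le_abs_self (Real.Gamma σ), Real.norm_eq_abs (Real.Gamma σ)]
  have k4 : ‖Complex.sin (π * (1 - (σ + u * I))) / π‖ ≤ Real.exp (π * |u|) := by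
    rw [norm_div, Complex.norm_real, Real.norm_of_nonneg Real.pi_pos.le]
    refine (div_le_self (norm_nonneg _) (by linarith [Real.pi_gt_three])).trans
      ((norm_sin_le_exp _).trans (le_of_eq ?_))
    simp [abs_mul, abs_of_pos Real.pi_pos]
  have k7 : u * t ≤ |u| * |t| := by rw [← abs_mul]; exact le_abs_self _
  have k8 : (1 - σ) ^ 2 ≤ (1 + σ2) ^ 2 := by nlinarith
  rw [Kw, inv_Gamma_refl (by simpa using k0), sub_sub_cancel, norm_mul, norm_mul, norm_mul,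
    norm_Wt_one]
  calc _ ≤ √π * Real.exp (((1 - σ) ^ 2 - (u - t) ^ 2) / 4) *
        ((|B| + 1) * ((|B| + 1) * Real.exp (π * |u|))) := by gcongr
    _ = √π * (|B| + 1) * (|B| + 1) * Real.exp (((1 - σ) ^ 2 - (u - t) ^ 2) / 4 + π * |u|) := by
        rw [Real.exp_add]; ring
    _ ≤ _ := by
        rw [mul_assoc (√π * (|B| + 1) * (|B| + 1)), ← Real.exp_add]
        refine mul_le_mul_of_nonneg_left (Real.exp_le_exp.2 ?_) (by positivity)
        nlinarith [sq_nonneg (|u| - 4 * (|t| / 2 + π)), sq_abs u, sq_nonneg t, sq_nonneg (1 + σ2)]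

theorem integrable_Kw (t : ℝ) {σ y : ℝ} (hσ : 0 < σ) (hy : 0 < y) :
    Integrable fun u : ℝ => Kw t (σ + u * I) * (y : ℂ) ^ (1 / 2 - ((σ : ℂ) + u * I)) := by
  obtain ⟨C, -, h⟩ := exists_Kw_strip t (σ2 := σ) hσ
  refine (integrable_of_gauss (continuous_Kw t hσ) fun u => h σ u le_rfl le_rfl).mul_bdd
    (c := y ^ (1 / 2 - σ)) (Continuous.aestronglyMeasurable ?_)
    (Eventually.of_forall fun u => (norm_cpow_half hy σ u).le)
  simp_rw [cpow_eq hy]; fun_prop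

theorem Kl_shift (t : ℝ) {σ1 σ2 y : ℝ} (h1 : 0 < σ1) (h2 : σ1 ≤ σ2) (hy : 0 < y) :
    Kl σ2 t y = Kl σ1 t y := by
  obtain ⟨C, hC, h⟩ := exists_Kw_strip t (σ2 := σ2) h1
  rw [Kl, Kl, shift_line (H := fun s => Kw t s * (y : ℂ) ^ (1 / 2 - s)) ?_ h2
    (b := fun x => C * Real.exp ((1 + σ2) * |Real.log y|) * Real.exp (-(1 / 8) * x ^ 2)) ?_ ?_
    (integrable_Kw t h1 hy) (integrable_Kw t (h1.trans_le h2) hy)]
  · intro s hs
    refine ((differentiableAt_Kw t (h1.trans_le hs.1)).mul ?_).differentiableWithinAt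
    simp_rw [cpow_eq hy]; fun_prop
  · have : Tendsto (fun x : ℝ => -(1 / 8) * x ^ 2) atTop atBot :=
      (tendsto_pow_atTop two_ne_zero).const_mul_atTop_of_neg (by norm_num)
    simpa using (Real.tendsto_exp_atBot.comp this).const_mul _
  · intro σ u k1 k2
    have k3 : y ^ (1 / 2 - σ) ≤ Real.exp ((1 + σ2) * |Real.log y|) := by
      rw [Real.rpow_def_of_pos hy, Real.exp_le_exp, mul_comm]
      refine (le_abs_self _).trans ?_
      rw [abs_mul]
      gcongr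
      exact abs_le.2 ⟨by linarith, by linarith⟩
    have k4 := h σ u k1 k2
    rw [norm_mul, norm_cpow_half hy, sq_abs, mul_right_comm]
    gcongr

/-- The dual test function does not depend on the line. -/
theorem K1_eq (t : ℝ) {σ y : ℝ} (hσ : 0 < σ) (hy : 0 < y) : K1 t y = Kl σ t y := by
  rcases le_total σ (1 / 2) with h | h
  exacts [Kl_shift t hσ h hy, (Kl_shift t (by norm_num) h hy).symm]

/-- `K1` decays faster than every power. -/
theorem exists_K1_le (k : ℕ) : ∃ C : ℝ, 0 < C ∧ ∀ t y : ℝ, 0 < y →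
    ‖K1 t y‖ ≤ C * (1 + |t|) ^ (2 * k) * (y ^ k)⁻¹ := by
  obtain ⟨C, hC, h⟩ := exists_Kw_le k 0
  refine ⟨C, hC, fun t y hy => ?_⟩
  rw [K1_eq t (σ := k + 1 / 2) (by positivity) hy]
  refine norm_int_le (t := t) (by positivity) fun u => ?_
  have := h t u
  rw [pow_zero, mul_one, add_zero] at this
  rw [norm_mul, norm_cpow_half hy, show (1 / 2 - (k + 1 / 2) : ℝ) = -(k : ℝ) by ring,
    Real.rpow_neg hy.le, Real.rpow_natCast, mul_right_comm]
  gcongr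

/-- Minkowski's inequality in integral form. -/
theorem mink {H Ω : Type*} [MeasurableSpace Ω] {μ : Measure Ω} (s : Finset H) {f : H → Ω → ℂ}
    (hf : ∀ m ∈ s, Integrable (f m) μ) {φ : Ω → ℝ} (hφ : Integrable φ μ)
    (h : ∀ᵐ ω ∂μ, 0 ≤ φ ω ∧ ∑ m ∈ s, ‖f m ω‖ ^ 2 ≤ φ ω ^ 2) :
    ∑ m ∈ s, ‖∫ ω, f m ω ∂μ‖ ^ 2 ≤ (∫ ω, φ ω ∂μ) ^ 2 := by
  refine sum_sq_le_of_dual s _ fun θ hθ => ?_
  simp_rw [← integral_const_mul]
  rw [← integral_finsetSum _ fun m hm => (hf m hm).const_mul _]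
  exact norm_integral_le_of_norm_le hφ (h.mono fun ω hω => norm_sum_mul_le s hθ hω.1 hω.2)

/-- A `W`-weighted sum. -/
noncomputable def LW {ι : Type*} (b : ι → ℂ) (N : ι → ℝ) (Y u : ℝ) : ℂ := ∑' j, b j * W Y u (N j)

/-- The density of the representation. -/
noncomputable def cf (σ t β : ℝ) (p : ℝ × ℝ) : ℂ := (1 / (2 * π) : ℝ) * Kw t (σ + p.2 * I) *
  (β : ℂ) ^ (1 / 2 - ((σ : ℂ) + p.2 * I)) * (Real.exp (σ ^ 2 / 4 - σ * p.1) : ℝ)

theorem norm_cf {β : ℝ} (hβ : 0 < β) (σ t : ℝ) (p : ℝ × ℝ) : ‖cf σ t β p‖ = 1 / (2 * π) *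
    ‖Kw t (σ + p.2 * I)‖ * β ^ (1 / 2 - σ) * Real.exp (σ ^ 2 / 4 - σ * p.1) := by
  rw [cf, norm_mul, norm_mul, norm_mul, norm_cpow_half hβ, Complex.norm_real, Complex.norm_real,
    Real.norm_of_nonneg (by positivity), Real.norm_of_nonneg (by positivity)]

theorem term_eq {β y : ℝ} (hβ : 0 < β) (hy : 0 < y) (σ t : ℝ) (b : ℂ) (p : ℝ × ℝ) :
    cf σ t β p * (b * W (Real.exp (p.1 - σ / 2)) (-p.2) y) =
      (b * ((√y)⁻¹ : ℝ) * (Real.exp (-(Real.log y - p.1) ^ 2) : ℝ)) * ((1 / (2 * π) : ℝ) *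
        (Kw t (σ + p.2 * I) * ((y * β : ℝ) : ℂ) ^ (1 / 2 - ((σ : ℂ) + p.2 * I)))) := by
  have k : Complex.exp ((1 / 2 - ((σ : ℂ) + p.2 * I)) * Real.log β) *
      Complex.exp ((σ ^ 2 / 4 - σ * p.1 : ℝ)) *
      Complex.exp (-((Real.log y - (p.1 - σ / 2)) ^ 2 : ℝ) + (-p.2 : ℝ) * Real.log y * I) =
      Complex.exp ((Real.log y * (-(1 / 2)) : ℝ)) * Complex.exp ((-(Real.log y - p.1) ^ 2 : ℝ)) *
      Complex.exp ((1 / 2 - ((σ : ℂ) + p.2 * I)) * Real.log (y * β)) := by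
    rw [Real.log_mul hy.ne' hβ.ne']
    simp only [← Complex.exp_add]
    congr 1
    push_cast
    ring
  rw [cf, W, Real.log_exp, cpow_eq hβ, cpow_eq (mul_pos hy hβ), Real.sqrt_eq_rpow y,
    ← Real.rpow_neg hy.le, Real.rpow_def_of_pos hy, Complex.ofReal_exp, Complex.ofReal_exp,
    Complex.ofReal_exp]
  linear_combination (((1 / (2 * π) : ℝ) : ℂ) * Kw t (σ + p.2 * I) * b) * k

theorem block {ι : Type*} [Countable ι] {b : ι → ℂ} {N : ι → ℝ} (hN : ∀ j, 0 < N j)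
    (hs : Summable fun j => ‖b j‖ * N j ^ (-2 : ℝ)) {σ β : ℝ} (hσ : 0 < σ) (hβ : 0 < β) (t : ℝ)
    {A : Set ℝ} (hA : IntegrableOn (fun z => Real.exp ((2 - σ) * z)) A) :
    Integrable (fun p : ℝ × ℝ => cf σ t β p * LW b N (Real.exp (p.1 - σ / 2)) (-p.2))
      ((volume.restrict A).prod volume) ∧
    HasSum (fun j => b j * ((√(N j))⁻¹ : ℝ) * K1 t (N j * β) *
      (∫ z in A, Real.exp (-(Real.log (N j) - z) ^ 2) : ℝ))
      (∫ p, cf σ t β p * LW b N (Real.exp (p.1 - σ / 2)) (-p.2) ∂(volume.restrict A).prod volume) := by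
  have h1 := (integrable_Kw t hσ one_pos).norm
  simp only [ofReal_one, Complex.one_cpow, mul_one] at h1
  have hg := (hA.mul_prod h1).const_mul
    (1 / (2 * π) * β ^ (1 / 2 - σ) * Real.exp (σ ^ 2 / 4 - σ + 1))
  have hb : ∀ j (p : ℝ × ℝ), ‖cf σ t β p * (b j * W (Real.exp (p.1 - σ / 2)) (-p.2) (N j))‖ ≤
      ‖b j‖ * N j ^ (-2 : ℝ) * (1 / (2 * π) * β ^ (1 / 2 - σ) * Real.exp (σ ^ 2 / 4 - σ + 1) *
        (Real.exp ((2 - σ) * p.1) * ‖Kw t (σ + p.2 * I)‖)) := fun j p => by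
    have k := norm_W_le (Real.exp_pos (p.1 - σ / 2)) (hN j) (-p.2) 2
    have k2 : Real.exp (σ ^ 2 / 4 - σ * p.1) * (Real.exp (2 ^ 2 / 4) * Real.exp (p.1 - σ / 2) ^ (2 : ℝ)) =
        Real.exp (σ ^ 2 / 4 - σ + 1) * Real.exp ((2 - σ) * p.1) := by
      rw [← Real.exp_mul, ← Real.exp_add, ← Real.exp_add, ← Real.exp_add]; congr 1; ring
    have k3 := Real.rpow_nonneg hβ.le (1 / 2 - σ)
    rw [norm_mul, norm_mul, norm_cf hβ]
    refine (mul_le_mul_of_nonneg_left (mul_le_mul_of_nonneg_left k (norm_nonneg _))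
      (by positivity)).trans (le_of_eq ?_)
    linear_combination (1 / (2 * π) * ‖Kw t (σ + p.2 * I)‖ * β ^ (1 / 2 - σ) * ‖b j‖ *
      N j ^ (-2 : ℝ)) * k2
  have hi : ∀ j, Integrable (fun p : ℝ × ℝ => cf σ t β p *
      (b j * W (Real.exp (p.1 - σ / 2)) (-p.2) (N j))) ((volume.restrict A).prod volume) := fun j => by
    refine Integrable.mono' (hg.const_mul _) (Continuous.aestronglyMeasurable ?_)
      (Eventually.of_forall (hb j))
    have := (continuous_Kw t hσ).comp (continuous_snd (X := ℝ))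
    simp_rw [term_eq hβ (hN j), cpow_eq (mul_pos (hN j) hβ)]
    exact (by fun_prop : Continuous _).mul (continuous_const.mul (this.mul (by fun_prop)))
  have hs2 : Summable fun j => ∫ p, ‖cf σ t β p *
      (b j * W (Real.exp (p.1 - σ / 2)) (-p.2) (N j))‖ ∂(volume.restrict A).prod volume := by
    exact Summable.of_nonneg_of_le (fun j => integral_nonneg fun p => norm_nonneg _) (fun j =>
      (integral_mono (hi j).norm (hg.const_mul _) (hb j)).trans_eq (integral_const_mul _ _))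
      (hs.mul_right _)
  have k1 := integrable_tsum' hi hs2
  have k2 := hasSum_integral_of_summable_integral_norm hi hs2
  simp only [tsum_mul_left] at k1 k2
  refine ⟨k1, k2.congr_fun fun j => Eq.symm ?_⟩
  simp_rw [term_eq hβ (hN j)]
  rw [integral_prod_mul (fun z : ℝ => b j * ((√(N j))⁻¹ : ℝ) *
    (Real.exp (-(Real.log (N j) - z) ^ 2) : ℝ)) (fun u : ℝ => ((1 / (2 * π) : ℝ) : ℂ) *
      (Kw t (σ + u * I) * ((N j * β : ℝ) : ℂ) ^ (1 / 2 - ((σ : ℂ) + u * I)))), integral_const_mul,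
    integral_const_mul, integral_complex_ofReal, K1_eq t hσ (mul_pos (hN j) hβ), Kl]
  ring

theorem block_l2 {H ι : Type*} [Countable ι] (s : Finset H) (g : H → ℂ) {b : H → ι → ℂ} {N : ι → ℝ}
    (hN : ∀ j, 0 < N j) (hs : ∀ m ∈ s, Summable fun j => ‖b m j‖ * N j ^ (-2 : ℝ)) {β : H → ℝ}
    {V K c t d : ℝ} {k n : ℕ} (hV : 0 < V) (hβ : ∀ m ∈ s, 1 ≤ V * β m) (hK : 0 ≤ K) (hd : 0 ≤ d)
    (hJ : ∀ u : ℝ, ‖Kw t (((k + 1 / 2 : ℝ) : ℂ) + u * I)‖ * (1 + |u|) ^ n ≤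
      K * Real.exp (-(1 / 8) * (u - t) ^ 2))
    {A : Set ℝ} (hm : MeasurableSet A)
    (hA : IntegrableOn (fun z => Real.exp ((2 - (k + 1 / 2)) * z)) A)
    (hA' : IntegrableOn (fun z => Real.exp (c * z)) A)
    (h : ∀ z ∈ A, ∀ u : ℝ, ∑ m ∈ s, ‖g m * LW (b m) N (Real.exp (z - (k + 1 / 2) / 2)) u‖ ^ 2 ≤
      (d * (1 + |u|) ^ n * Real.exp ((c + (k + 1 / 2)) * z)) ^ 2) :
    ∑ m ∈ s, ‖g m * ∫ p, cf (k + 1 / 2) t (β m) p *
      LW (b m) N (Real.exp (p.1 - (k + 1 / 2) / 2)) (-p.2) ∂(volume.restrict A).prod volume‖ ^ 2 ≤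
      (K * Real.exp ((k + 1 / 2) ^ 2 / 4) * d * V ^ k * ∫ z in A, Real.exp (c * z)) ^ 2 := by
  have hβ0 : ∀ m ∈ s, 0 < β m := fun m hm =>
    pos_of_mul_pos_left (one_pos.trans_le ((hβ m hm).trans_eq (mul_comm _ _))) hV.le
  have hG := (integrable_exp_neg_mul_sq (by norm_num : (0 : ℝ) < 1 / 8)).comp_sub_right t
  set σ : ℝ := k + 1 / 2 with hσ
  set D : ℝ := K * Real.exp (σ ^ 2 / 4) * d * V ^ k with hD
  have hD0 : 0 ≤ D := by positivity
  simp_rw [← integral_const_mul (g _)]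
  refine (mink s (fun m hm => (block hN (hs m hm) (by positivity) (hβ0 m hm) t hA).1.const_mul _)
    ((hA'.mul_prod hG).const_mul (D * (1 / (2 * π)))) ?_).trans ?_
  · rw [← Measure.restrict_univ (μ := (volume : Measure ℝ)), Measure.prod_restrict,
      ae_restrict_iff' (hm.prod MeasurableSet.univ)]
    refine Eventually.of_forall fun p hp => ⟨by positivity, ?_⟩
    have k1 : ∀ m ∈ s, ‖cf σ t (β m) p‖ ≤ 1 / (2 * π) * ‖Kw t (σ + p.2 * I)‖ * V ^ k *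
        Real.exp (σ ^ 2 / 4 - σ * p.1) := fun m hm => by
      rw [norm_cf (hβ0 m hm), show (1 / 2 - σ : ℝ) = -(k : ℝ) by rw [hσ]; ring,
        Real.rpow_neg (hβ0 m hm).le, Real.rpow_natCast, ← inv_pow]
      have := hβ0 m hm
      gcongr
      rw [inv_le_iff_one_le_mul₀ this]
      exact hβ m hm
    have k2 := h p.1 hp.1 (-p.2)
    have k3 := hJ p.2
    have k4 : Real.exp (σ ^ 2 / 4 - σ * p.1) * Real.exp ((c + σ) * p.1) =
        Real.exp (σ ^ 2 / 4) * Real.exp (c * p.1) := by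
      rw [← Real.exp_add, ← Real.exp_add]; congr 1; ring
    rw [abs_neg] at k2
    calc _ ≤ ∑ m ∈ s, (1 / (2 * π) * ‖Kw t (σ + p.2 * I)‖ * V ^ k *
          Real.exp (σ ^ 2 / 4 - σ * p.1)) ^ 2 *
          ‖g m * LW (b m) N (Real.exp (p.1 - σ / 2)) (-p.2)‖ ^ 2 :=
          Finset.sum_le_sum fun m hm => by
            rw [mul_left_comm, norm_mul, mul_pow]
            have := k1 m hm
            gcongr
      _ ≤ (1 / (2 * π) * ‖Kw t (σ + p.2 * I)‖ * V ^ k * Real.exp (σ ^ 2 / 4 - σ * p.1)) ^ 2 *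
          (d * (1 + |p.2|) ^ n * Real.exp ((c + σ) * p.1)) ^ 2 := by
          rw [← Finset.mul_sum]; gcongr
      _ = (1 / (2 * π) * V ^ k * d * (Real.exp (σ ^ 2 / 4) * Real.exp (c * p.1)) *
          (‖Kw t (σ + p.2 * I)‖ * (1 + |p.2|) ^ n)) ^ 2 := by rw [← k4]; ring
      _ ≤ (1 / (2 * π) * V ^ k * d * (Real.exp (σ ^ 2 / 4) * Real.exp (c * p.1)) *
          (K * Real.exp (-(1 / 8) * (p.2 - t) ^ 2))) ^ 2 := by gcongr
      _ = _ := by rw [hD]; ring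
  · have k1 : 0 ≤ ∫ z in A, Real.exp (c * z) := integral_nonneg fun z => (Real.exp_pos _).le
    have h2 : √(π / (1 / 8)) ≤ 2 * π := Real.sqrt_le_iff.2 ⟨by positivity, by
      nlinarith [Real.pi_gt_three]⟩
    rw [integral_const_mul, integral_prod_mul (fun z : ℝ => Real.exp (c * z))
      (fun u : ℝ => Real.exp (-(1 / 8) * (u - t) ^ 2)),
      integral_sub_right_eq_self (fun u : ℝ => Real.exp (-(1 / 8) * u ^ 2)) t, integral_gaussian]
    refine pow_le_pow_left₀ (by positivity) ?_ 2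
    calc _ ≤ D * (1 / (2 * π)) * ((∫ z in A, Real.exp (c * z)) * (2 * π)) := by gcongr
      _ = _ := by field_simp

theorem two_parts {g S P1 P2 : ℂ} (h : S * (√π : ℝ) = P1 + P2) :
    ‖g * S‖ ^ 2 ≤ 2 * ‖g * P1‖ ^ 2 + 2 * ‖g * P2‖ ^ 2 := by
  have e5 : ‖g * S‖ ≤ ‖g * P1‖ + ‖g * P2‖ := by
    refine le_trans ?_ (norm_add_le _ _)
    rw [← mul_add, ← h, ← mul_assoc, norm_mul _ (((√π : ℝ)) : ℂ), Complex.norm_real,
      Real.norm_of_nonneg (Real.sqrt_nonneg _)]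
    exact le_mul_of_one_le_right (norm_nonneg _)
      (Real.one_le_sqrt.2 (by linarith [Real.pi_gt_three]))
  nlinarith [norm_nonneg (g * S), sq_nonneg (‖g * P1‖ - ‖g * P2‖)]

/-- Return to the class of `W`-weighted sums, in mean square. -/
theorem ret_l2 (a n : ℕ) {κ : ℝ} (h0 : 0 < κ) (h1 : κ ≤ 1) : ∃ C : ℝ, 0 < C ∧
    ∀ {H ι : Type} [Countable ι] (s : Finset H) (g : H → ℂ) (b : H → ι → ℂ) (N : ι → ℝ)
    (β : H → ℝ) (V D t : ℝ), 0 < V → 0 ≤ D → (∀ j, 0 < N j) → (∀ m ∈ s, 1 ≤ V * β m) →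
    (∀ m ∈ s, Summable fun j => ‖b m j‖ * N j ^ (-2 : ℝ)) →
    (∀ Y u : ℝ, 0 < Y → ∑ m ∈ s, ‖g m * LW (b m) N Y u‖ ^ 2 ≤
      D * (1 + |u|) ^ (2 * n) * Y ^ (1 + κ) * (1 + Y / V) ^ (2 * a)) →
    ∑ m ∈ s, ‖g m * ∑' j, b m j * ((√(N j))⁻¹ : ℝ) * K1 t (N j * β m)‖ ^ 2 ≤
      C * (1 + |t|) ^ (2 * n + 4 * (a + 2)) * D * V ^ κ := by
  obtain ⟨C1, hC1, hJ1⟩ := exists_Kw_le 0 n
  obtain ⟨C2, hC2, hJ2⟩ := exists_Kw_le (a + 2) n
  refine ⟨2 * (C1 * Real.exp ((1 / 2) ^ 2 / 4) * 2 ^ a * (2 / κ)) ^ 2 +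
    2 * (C2 * Real.exp (((a + 2 : ℕ) + 1 / 2) ^ 2 / 4) * 2 ^ a) ^ 2, by positivity,
    fun s g b N β V D t hV hD hN hβ hs h => ?_⟩
  have hβ0 : ∀ m ∈ s, 0 < β m := fun m hm =>
    pos_of_mul_pos_left (one_pos.trans_le ((hβ m hm).trans_eq (mul_comm _ _))) hV.le
  have ha : (0 : ℝ) ≤ a := Nat.cast_nonneg a
  have key : ∀ x z u c B : ℝ, 0 ≤ x → 1 + Real.exp z / V ≤ B →
      ∑ m ∈ s, ‖g m * LW (b m) N (Real.exp (z - x)) u‖ ^ 2 ≤
        (√D * (1 + |u|) ^ n * Real.exp ((κ / 2 + 1 / 2) * z) * B ^ a) ^ 2 := fun x z u c B hx hB => by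
    refine (h _ u (Real.exp_pos _)).trans ?_
    have e1 : Real.exp (z - x) ≤ Real.exp z := Real.exp_le_exp.2 (by linarith)
    have e2 : 1 + Real.exp (z - x) / V ≤ B := le_trans (by gcongr) hB
    rw [mul_pow, mul_pow, mul_pow, Real.sq_sqrt hD, ← pow_mul, ← pow_mul, mul_comm n, mul_comm a,
      ← Real.exp_nat_mul, ← Real.exp_mul]
    have e3 : (z - x) * (1 + κ) ≤ (2 : ℕ) * ((κ / 2 + 1 / 2) * z) := by push_cast; nlinarith
    gcongr
  have i1 : IntegrableOn (fun z => Real.exp ((2 - (((0 : ℕ) : ℝ) + 1 / 2)) * z)) (Iic (Real.log V)) :=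
    integrableOn_exp_mul_Iic (by norm_num) _
  have i2 : IntegrableOn (fun z => Real.exp ((2 - (((a + 2 : ℕ) : ℝ) + 1 / 2)) * z))
      (Ioi (Real.log V)) := integrableOn_exp_mul_Ioi (by push_cast; linarith) _
  have b1 := block_l2 s g hN hs (c := κ / 2) (d := √D * 2 ^ a) hV hβ (by positivity)
    (by positivity) (hJ1 t) measurableSet_Iic i1 (integrableOn_exp_mul_Iic (by linarith) _)
    fun z hz u => (key _ z u 0 2 (by positivity) (by
      have := (Real.le_log_iff_exp_le hV).1 hz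
      have := (div_le_one hV).2 this
      linarith)).trans_eq (by push_cast; ring_nf)
  have b2 := block_l2 s g hN hs (c := κ / 2 - 2) (d := √D * (2 / V) ^ a) hV hβ (by positivity)
    (by positivity) (hJ2 t) measurableSet_Ioi i2 (integrableOn_exp_mul_Ioi (by linarith) _)
    fun z hz u => (key _ z u 0 (2 / V * Real.exp z) (by positivity) (by
      have := (one_le_div hV).2 ((Real.log_lt_iff_lt_exp hV).1 hz).le
      rw [div_mul_eq_mul_div, two_mul, add_div]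
      linarith)).trans_eq (by
        rw [mul_pow (2 / V), ← Real.exp_nat_mul, show (κ / 2 - 2 + (((a + 2 : ℕ) : ℝ) + 1 / 2)) * z =
          (κ / 2 + 1 / 2) * z + a * z by push_cast; ring, Real.exp_add]; ring)
  rw [integral_exp_mul_Iic (by linarith)] at b1
  rw [integral_exp_mul_Ioi (by linarith)] at b2
  have e1 : Real.exp (κ / 2 * Real.log V) ^ 2 = V ^ κ := by
    rw [← Real.exp_nat_mul, Real.rpow_def_of_pos hV]; congr 1; push_cast; ring
  have e2 : -Real.exp ((κ / 2 - 2) * Real.log V) / (κ / 2 - 2) ≤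
      Real.exp (κ / 2 * Real.log V) / V ^ 2 := by
    rw [sub_mul, Real.exp_sub, show (2 : ℝ) * Real.log V = (2 : ℕ) * Real.log V by norm_num,
      Real.exp_nat_mul, Real.exp_log hV, neg_div, ← div_neg]
    exact div_le_self (by positivity) (by linarith)
  have e3 : 0 ≤ -Real.exp ((κ / 2 - 2) * Real.log V) / (κ / 2 - 2) :=
    div_nonneg_of_nonpos (neg_nonpos.2 (Real.exp_pos _).le) (by linarith)
  have t1 : (1 : ℝ) ≤ 1 + |t| := by linarith [abs_nonneg t]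
  have b3 := b1.trans (show _ ≤ (C1 * Real.exp ((1 / 2) ^ 2 / 4) * 2 ^ a * (2 / κ)) ^ 2 *
      (1 + |t|) ^ (2 * n + 4 * (a + 2)) * D * V ^ κ by
    have : ((1 + |t|) ^ (2 * 0 + n)) ^ 2 ≤ (1 + |t|) ^ (2 * n + 4 * (a + 2)) := by
      rw [← pow_mul]; exact pow_le_pow_right₀ t1 (by omega)
    calc _ = (C1 * Real.exp ((1 / 2) ^ 2 / 4) * 2 ^ a * (2 / κ)) ^ 2 *
        ((1 + |t|) ^ (2 * 0 + n)) ^ 2 * √D ^ 2 * Real.exp (κ / 2 * Real.log V) ^ 2 := by
          push_cast; field_simp; ring_nf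
      _ ≤ _ := by rw [e1, Real.sq_sqrt hD]; gcongr)
  have b4 := b2.trans (show _ ≤ (C2 * Real.exp (((a + 2 : ℕ) + 1 / 2) ^ 2 / 4) * 2 ^ a) ^ 2 *
      (1 + |t|) ^ (2 * n + 4 * (a + 2)) * D * V ^ κ by
    calc _ ≤ (C2 * (1 + |t|) ^ (2 * (a + 2) + n) * Real.exp (((a + 2 : ℕ) + 1 / 2) ^ 2 / 4) *
        (√D * (2 / V) ^ a) * V ^ (a + 2) * (Real.exp (κ / 2 * Real.log V) / V ^ 2)) ^ 2 := by gcongr
      _ = (C2 * Real.exp (((a + 2 : ℕ) + 1 / 2) ^ 2 / 4) * 2 ^ a) ^ 2 *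
        (1 + |t|) ^ (2 * n + 4 * (a + 2)) * √D ^ 2 * Real.exp (κ / 2 * Real.log V) ^ 2 := by
          rw [div_pow]; field_simp; ring
      _ = _ := by rw [e1, Real.sq_sqrt hD])
  refine le_trans (Finset.sum_le_sum fun m hm => ?_) (((Finset.sum_add_distrib.trans (congrArg₂ _
    (Finset.mul_sum _ _ 2).symm (Finset.mul_sum _ _ 2).symm)).trans_le (add_le_add
    (mul_le_mul_of_nonneg_left b3 two_pos.le) (mul_le_mul_of_nonneg_left b4 two_pos.le))).trans_eq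
    (by ring))
  have s1 := (block hN (hs m hm) (by positivity) (hβ0 m hm) t i1).2
  have s2 := (block hN (hs m hm) (by positivity) (hβ0 m hm) t i2).2
  have s3 := (s1.add s2).tsum_eq
  have e4 : ∀ y : ℝ, (∫ z in Iic (Real.log V), Real.exp (-(y - z) ^ 2)) +
      ∫ z in Ioi (Real.log V), Real.exp (-(y - z) ^ 2) = √π := fun y => by
    have i3 := (integrable_exp_neg_mul_sq one_pos).comp_sub_left y
    have i4 := integral_sub_left_eq_self (fun u : ℝ => Real.exp (-1 * u ^ 2)) volume y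
    rw [integral_gaussian, div_one] at i4
    simp only [neg_mul, one_mul] at i3 i4
    rw [intervalIntegral.integral_Iic_add_Ioi i3.integrableOn i3.integrableOn, i4]
  simp only [← mul_add, ← ofReal_add, e4, tsum_mul_right] at s3
  exact two_parts s3

end Pool.Agent.P.MP_323ce2_nt.QF
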