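import Pool.Agent.P.MP_323ce2_nt.QZ.St
import Pool.Agent.P.MP_26a8c3_nt.QO.Div

/-! Statements of the flip layer: the functional equation of the sextic twists in terms of
weighted sums. -/

namespace Pool.Agent.P.MP_323ce2_nt.QF

open Pool.Agent.P.MP_26a8c3_nt Pool.Agent.P.MP_26a8c3_nt.QO Pool.Agent.P.MP_26a8c3_nt.QA
open Pool.Agent.P.MP_323ce2_nt.QZ
open scoped Classical ComplexConjugate

noncomputable section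

/-- the twist by the sextic symbol of `m` -/
def ph (ν : O → ℂ) (m n : O) : ℂ := ν n * psi n m

/-- the complete sum over all primary `n` -/
def Lm (ν : O → ℂ) (m : O) (X t : ℝ) : ℂ := Wsum (uL (ph ν m)) X t

/-- exceptional `m`: the twist is principal -/
def Exc (Q : O) (ν : O → ℂ) (m : O) : Prop :=
  ∀ n, Primary n → IsCoprime n (Q * m) → ph ν m n = 1

/-- the radical of `m` has norm at most `R` -/
def Rad (m : O) (R : ℝ) : Prop :=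
  ∃ r : O, r ≠ 0 ∧ (N r : ℝ) ≤ R ∧ ∀ p, Prime p → p ∣ m → p ∣ r

/-- divisors of powers of `n` -/
def Sup (n g : O) : Prop := ∃ k : ℕ, g ∣ n ^ k

/-- the data used by the flip -/
structure Fl (φ : O → ℂ) (q r : O) : Prop where
  mul : Mul1 φ
  q0 : q ≠ 0
  q3 : 3 ∣ q
  sq : SQ r
  cop : IsCoprime q r
  per : Per (q * r) (uL φ)
  zero : ∀ n, Primary n → ¬ IsCoprime n (q * r) → φ n = 0
  ft : ∀ h, ‖ft (uL φ) (q * r) h‖ ≤ N q * (ab r * ab (gcd r h))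

end

/-! ### the three results of the layer -/

/-- the principal case: main term and error -/
def S_F0 : Prop :=
  ∀ Q : O, Q ≠ 0 → 36 ∣ Q → ∃ δ : O → ℝ, ∀ ε : ℝ, 0 < ε → ∃ (C : ℝ) (k : ℕ), 0 < C ∧
    ∀ (m : O) (R : ℝ), m ≠ 0 → Rad m R → R ^ (-ε) ≤ C * δ m ∧ δ m ≤ 4 ∧
      ∀ (ν : O → ℂ) (X t : ℝ), IsNu Q ν → Exc Q ν m → 0 < X →
        ‖Lm ν m X t - δ m * Wt X t 1‖ ≤ C * (1 + |t|) ^ k * R ^ ε

/-- decay of long sums -/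
def S_F1 : Prop :=
  ∀ Q : O, Q ≠ 0 → 36 ∣ Q → ∀ A : ℕ, ∃ (C : ℝ) (k : ℕ), 0 < C ∧
    ∀ (ν : O → ℂ) (m : O) (R X t : ℝ), IsNu Q ν → m ≠ 0 → Rad m R → ¬ Exc Q ν m → 1 ≤ X →
      ‖Lm ν m X t‖ ≤ C * (1 + |t|) ^ k * R ^ 2 * (R / X) ^ A

/-- the flip, in mean square with arbitrary weights -/
def S_F2 : Prop :=
  ∀ Q : O, Q ≠ 0 → 36 ∣ Q → ∀ (ε : ℝ) (A K : ℕ), 0 < ε → ∃ (C : ℝ) (k : ℕ), 0 < C ∧
    ∀ (ι : Type) (s : Finset ι) (ν : ι → O → ℂ) (m : ι → O) (c : ι → ℝ) (R X D t B : ℝ),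
      1 ≤ R → 1 ≤ X → 1 ≤ D → 0 ≤ B →
      (∀ i ∈ s, IsNu Q (ν i) ∧ m i ≠ 0 ∧ Rad (m i) R ∧ ¬ Exc Q (ν i) (m i) ∧ 0 ≤ c i) →
      (∀ Y u : ℝ, D⁻¹ ≤ Y → Y ≤ D * (N Q * R / X) →
        ∑ i ∈ s, c i * ‖Lm (ν i) (m i) Y u‖ ^ 2 ≤ B * (1 + |u|) ^ K * Y) →
      ∑ i ∈ s, c i * ‖Lm (ν i) (m i) X t‖ ^ 2 ≤
        C * (1 + |t|) ^ k * (R * D) ^ ε * X * (B + R / D ^ A * ∑ i ∈ s, c i)

/-! ### arithmetic steps -/

/-- the twist is periodic, with small finite Fourier transform -/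
def S_Dec : Prop :=
  ∀ Q m : O, Q ≠ 0 → 36 ∣ Q → m ≠ 0 →
    ∃ r : O, (∀ ν, IsNu Q ν → Fl (ph ν m) (2 * Q) r) ∧ (∀ R, Rad m R → (N r : ℝ) ≤ R) ∧
      ∀ n, IsCoprime n (2 * Q * r) ↔ IsCoprime n (Q * m)

/-- the dual coefficients -/
def S_Mul : Prop :=
  ∀ (φ : O → ℂ) (q r : O), Fl φ q r →
    (∀ u h, Primary u → IsCoprime u (q * r) →
      ft (uL φ) (q * r) (h * u) = ft (uL φ) (q * r) h * conj (φ u)) ∧
    ((∃ u, Primary u ∧ IsCoprime u (q * r) ∧ φ u ≠ 1) → ft (uL φ) (q * r) 0 = 0) ∧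
    ((∀ u, Primary u → IsCoprime u (q * r) → φ u = 1) →
      ∀ h, ‖ft (uL φ) (q * r) h‖ ≤ N q * N (gcd r h))

/-- splitting of a sum over nonzero elements -/
def S_Rix : Prop :=
  ∀ (n₀ : O) (f : O → ℂ) (b : O → ℝ) (β : ℝ), n₀ ≠ 0 → 3 ∣ n₀ → f 0 = 0 → Summable f →
    (∀ g, Sup n₀ g → ‖∑' n : O, if Primary n ∧ IsCoprime n n₀ then f (g * n) else 0‖ ≤ b g) →
    (∀ T : Finset O, (∀ g ∈ T, Sup n₀ g) → ∑ g ∈ T, b g ≤ β) → ‖∑' h, f h‖ ≤ β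

/-- the total weight of the smooth part of the dual variable -/
def S_Wt : Prop :=
  ∀ (q : O) (ε : ℝ), q ≠ 0 → 0 < ε → ∃ C : ℝ, 0 < C ∧ ∀ (r : O) (T : Finset O), SQ r →
    (∀ g ∈ T, Sup (q * r) g) → ∑ g ∈ T, ab (gcd r g) / ab g ≤ C * (N r : ℝ) ^ ε

/-- the dual sum in the principal case -/
def S_Gcd : Prop :=
  ∀ ε : ℝ, 0 < ε → ∃ C : ℝ, 0 < C ∧ ∀ (r : O) (T : Finset O), SQ r → 0 ∉ T →
    ∑ h ∈ T, (N (gcd r h) : ℝ) * (N h : ℝ) ^ (-(1 + ε)) ≤ C * (N r : ℝ) ^ ε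

/-- the density of primary elements prime to the modulus -/
def S_Den : Prop :=
  ∀ (q : O) (ε : ℝ), q ≠ 0 → 3 ∣ q → 0 < ε → ∃ C : ℝ, 0 < C ∧ ∀ r : O, SQ r → IsCoprime q r →
    ∃ x : ℝ, sm (q * r) (uL (cop (q * r))) = x * N (q * r) ∧ (N r : ℝ) ^ (-ε) ≤ C * x ∧ x ≤ 1

lemma Rad.one_le {m : O} {R : ℝ} (h : Rad m R) : 1 ≤ R :=
  let ⟨_, h0, h1, _⟩ := h
  (one_le_N h0).trans h1

lemma rad_self {m : O} (h : m ≠ 0) {R : ℝ} (hR : (N m : ℝ) ≤ R) : Rad m R := ⟨m, h, hR, fun _ _ e => e⟩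

lemma mul1_ph {Q : O} {ν : O → ℂ} (h : IsNu Q ν) (m : O) : Mul1 (ph ν m) :=
  ⟨by simp [ph, h.one, psi_unit_left isUnit_one], fun a b ha hb => by
    rw [ph, ph, ph, h.mul, psi_mul_left ha.ne_zero hb.ne_zero]; ring,
    fun a => QB.norm_mul_le_one (h.le a) (norm_psi_le _ _)⟩

end Pool.Agent.P.MP_323ce2_nt.QF
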